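import Pool.Agent.Helper7.D4.Main
import Pool.Agent.Helper20.DN.All

/-!
# Project D4: the theorem for all `n ≥ 4`
-/

namespace Pool.Agent.Helper7.D4

open Pool.Agent.Helper20.DN

/-- the theorem for all `n ≥ 4` -/
theorem main4 (n : ℕ) (hn : 4 ≤ n) : Described (Dt n) ∧ (5 ≤ n → IsD4 (GraphAut (Dt n))) ∧
    (n = 4 → IsS4 (GraphAut (Dt n))) := by
  rcases Nat.lt_or_ge n 5 with h | h
  · have e : n = 4 := by omega
    subst e
    exact ⟨described4, fun h => absurd h (by omega), fun _ => graphAut_S4⟩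
  · exact ⟨(main n h).1, fun _ => (main n h).2, fun e => by omega⟩

end Pool.Agent.Helper7.D4
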