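import Pool.Agent.Helper20.DN.Sym
import Pool.Agent.Helper7.AG.Sl
import Pool.Agent.Helper7.AG.Sl5
import Pool.Agent.Helper7.AG.Sl6

/-!
# Project D4 (add-on to project DN): the Artin group of type `D̃_4`

`D 0 = Artin (Dt 4)` is generated by the four leaves `lv i`, `i : Fin 4` (`lv 0 = a_0`, `lv 1 = e`,
`lv 2 = a_2`, `lv 3 = b`), and the center `cc = a_1`.  `B3` is the braid group on three strands,
`F3 : D 0 → B3` maps the leaves to `s1` and `cc` to `s2`.
-/

namespace Pool.Agent.Helper7.D4

open Pool.Agent.Helper38.BN Pool.Agent.Helper20.DN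
open Pool.Agent.Helper7.AG (SL mA mB mA_braid ker_B3 closure_AB)

section
variable {K L : Type*} [Group K] [Group L]

/-- the relations of the star with four leaves -/
structure Star (l : Fin 4 → K) (c : K) : Prop where
  comm : ∀ i j, l i * l j = l j * l i
  braid : ∀ i, l i * c * l i = c * l i * c

lemma Star.map {l : Fin 4 → K} {c : K} (h : Star l c) (f : K →* L) :
    Star (fun i => f (l i)) (f c) where
  comm i j := by rw [← map_mul, h.comm, map_mul]
  braid i := by rw [← map_mul, ← map_mul, h.braid, map_mul, map_mul]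

lemma Star.perm {l : Fin 4 → K} {c : K} (h : Star l c) (σ : Equiv.Perm (Fin 4)) :
    Star (fun i => l (σ i)) c := ⟨fun i j => h.comm _ _, fun i => h.braid _⟩

/-- the images of `a_0`, `a_1`, `a_2` -/
def aS (l : Fin 4 → K) (c : K) (j : ℕ) : K := if j = 0 then l 0 else if j = 1 then c else l 2

lemma Star.relD {l : Fin 4 → K} {c : K} (h : Star l c) : RelD 0 (aS l c) (l 3) (l 1) where
  comm i j h1 h2 := by
    have e1 : i = 0 := by omega
    have e2 : j = 2 := by omega
    subst e1; subst e2
    simp only [aS]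
    exact h.comm _ _
  braid i hi := by
    have e : i = 0 ∨ i = 1 := by omega
    rcases e with rfl | rfl
    · exact h.braid 0
    · exact (h.braid 2).symm
  ba := h.comm _ _
  bb := h.braid 3
  bc i hi := by
    have e : i = 0 := by omega
    subst e
    exact h.comm _ _
  ea := h.comm _ _
  eb := h.braid 1
  ec i h1 h2 := by
    have e : i = 2 := by omega
    subst e
    exact h.comm _ _
  be := h.comm _ _

end

/-- the leaves -/
def lv : Fin 4 → D 0 := ![aD 0, eD, aD 2, bD]
/-- the center of the star -/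
def cc : D 0 := aD 1

@[simp] lemma lv_zero : lv 0 = aD 0 := rfl
@[simp] lemma lv_one : lv 1 = eD := rfl
@[simp] lemma lv_two : lv 2 = aD 2 := rfl
@[simp] lemma lv_three : lv 3 = bD := rfl

theorem star : Star lv cc where
  comm i j := by
    have r := relD 0
    have h1 : (aD 0 : D 0) * aD 2 = aD 2 * aD 0 := r.comm 0 2 (by omega) (by omega)
    have h2 : (eD : D 0) * aD 0 = aD 0 * eD := r.ea
    have h3 : (bD : D 0) * aD 2 = aD 2 * bD := r.ba
    have h4 : (bD : D 0) * aD 0 = aD 0 * bD := r.bc 0 (by omega)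
    have h5 : (eD : D 0) * aD 2 = aD 2 * eD := r.ec 2 (by omega) (by omega)
    have h6 : (bD : D 0) * eD = eD * bD := r.be
    fin_cases i <;> fin_cases j <;>
      simp [lv, h1, h2, h3, h4, h5, h6]
  braid i := by
    have r := relD 0
    fin_cases i
    · exact r.braid 0 (by omega)
    · exact r.eb
    · exact (r.braid 1 (by omega)).symm
    · exact r.bb

section
variable {K : Type*} [Group K]

/-- the universal property -/
def liftS {l : Fin 4 → K} {c : K} (h : Star l c) : D 0 →* K := liftD h.relD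

@[simp] lemma liftS_lv {l : Fin 4 → K} {c : K} (h : Star l c) (i : Fin 4) :
    liftS h (lv i) = l i := by
  unfold liftS
  fin_cases i
  · exact liftD_a h.relD (j := 0) (by omega)
  · exact liftD_e h.relD
  · exact liftD_a h.relD (j := 2) (by omega)
  · exact liftD_b h.relD

@[simp] lemma liftS_cc {l : Fin 4 → K} {c : K} (h : Star l c) : liftS h cc = c :=
  liftD_a h.relD (j := 1) (by omega)

lemma homS_ext {f g : D 0 →* K} (hl : ∀ i, f (lv i) = g (lv i)) (hc : f cc = g cc) : f = g := by
  apply homD_ext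
  · intro j hj
    have e : j = 0 ∨ j = 1 ∨ j = 2 := by omega
    rcases e with rfl | rfl | rfl
    · exact hl 0
    · exact hc
    · exact hl 2
  · exact hl 3
  · exact hl 1

lemma closure_star : Subgroup.closure (insert cc (Set.range lv)) = (⊤ : Subgroup (D 0)) := by
  rw [eq_top_iff, ← closure_D, Subgroup.closure_le]
  have hl : ∀ i, lv i ∈ Subgroup.closure (insert cc (Set.range lv)) := fun i =>
    Subgroup.subset_closure (Or.inr ⟨i, rfl⟩)
  have hc : cc ∈ Subgroup.closure (insert cc (Set.range lv)) :=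
    Subgroup.subset_closure (Or.inl rfl)
  rintro x ((rfl | rfl) | ⟨j, hj, rfl⟩)
  · exact hl 3
  · exact hl 1
  · have hj' : j < 3 := hj
    have e : j = 0 ∨ j = 1 ∨ j = 2 := by omega
    rcases e with rfl | rfl | rfl
    · exact hl 0
    · exact hc
    · exact hl 2

end

/-- the endomorphism of a permutation of the leaves -/
def pmHom (σ : Equiv.Perm (Fin 4)) : D 0 →* D 0 := liftS (star.perm σ)

lemma pmHom_comp (σ τ : Equiv.Perm (Fin 4)) (x : D 0) :
    pmHom σ (pmHom τ x) = pmHom (σ * τ) x := by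
  have h : (pmHom σ).comp (pmHom τ) = pmHom (σ * τ) := by
    apply homS_ext
    · intro i; simp [pmHom]
    · simp [pmHom]
  exact DFunLike.congr_fun h x

lemma pmHom_one (x : D 0) : pmHom 1 x = x := by
  have h : pmHom 1 = MonoidHom.id (D 0) := by
    apply homS_ext
    · intro i; simp [pmHom]
    · simp [pmHom]
  exact DFunLike.congr_fun h x

/-- the automorphism of a permutation of the leaves -/
def pm (σ : Equiv.Perm (Fin 4)) : MulAut (D 0) where
  toFun := pmHom σ
  invFun := pmHom σ⁻¹
  left_inv x := by rw [pmHom_comp, inv_mul_cancel, pmHom_one]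
  right_inv x := by rw [pmHom_comp, mul_inv_cancel, pmHom_one]
  map_mul' := map_mul _

@[simp] lemma pm_lv (σ : Equiv.Perm (Fin 4)) (i : Fin 4) : pm σ (lv i) = lv (σ i) :=
  liftS_lv (star.perm σ) i
@[simp] lemma pm_cc (σ : Equiv.Perm (Fin 4)) : pm σ cc = cc := liftS_cc (star.perm σ)

@[simp] lemma eps_lv (i : Fin 4) : eps 0 (lv i) = (lv i)⁻¹ := by
  fin_cases i
  · exact eps_a (p := 0) (j := 0) (by omega)
  · exact eps_e
  · exact eps_a (p := 0) (j := 2) (by omega)
  · exact eps_b
@[simp] lemma eps_cc : eps 0 cc = cc⁻¹ := eps_a (p := 0) (j := 1) (by omega)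

lemma lenD_lv (i : Fin 4) : lenD 0 (lv i) = Multiplicative.ofAdd 1 := by
  fin_cases i
  · exact lenD_a (p := 0) (j := 0) (by omega)
  · exact lenD_e
  · exact lenD_a (p := 0) (j := 2) (by omega)
  · exact lenD_b

lemma lenD_cc : lenD 0 cc = Multiplicative.ofAdd 1 := lenD_a (p := 0) (j := 1) (by omega)

/-! ### the braid group on three strands -/

/-- the relation of the braid group on three strands -/
def relB3 : Set (FreeGroup (Fin 2)) :=
  {FreeGroup.of 0 * FreeGroup.of 1 * FreeGroup.of 0 *
    (FreeGroup.of 1 * FreeGroup.of 0 * FreeGroup.of 1)⁻¹}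

/-- the braid group on three strands -/
abbrev B3 : Type := PresentedGroup relB3

/-- the first generator -/
def s1 : B3 := PresentedGroup.of 0
/-- the second generator -/
def s2 : B3 := PresentedGroup.of 1

lemma s_braid : s1 * s2 * s1 = s2 * s1 * s2 := by
  have h := PresentedGroup.one_of_mem (rels := relB3) (x := FreeGroup.of 0 * FreeGroup.of 1 *
    FreeGroup.of 0 * (FreeGroup.of 1 * FreeGroup.of 0 * FreeGroup.of 1)⁻¹) rfl
  rw [map_mul, map_inv, mul_inv_eq_one] at h
  exact h

section
variable {K : Type*} [Group K]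

/-- the universal property of `B3` -/
def lift3 {x y : K} (h : x * y * x = y * x * y) : B3 →* K :=
  PresentedGroup.toGroup (rels := relB3) (f := ![x, y]) (by
    rintro r rfl
    rw [map_mul, map_inv, mul_inv_eq_one]
    simpa using h)

@[simp] lemma lift3_1 {x y : K} (h : x * y * x = y * x * y) : lift3 h s1 = x := by
  unfold lift3 s1; rw [PresentedGroup.toGroup.of]; rfl
@[simp] lemma lift3_2 {x y : K} (h : x * y * x = y * x * y) : lift3 h s2 = y := by
  unfold lift3 s2; rw [PresentedGroup.toGroup.of]; rfl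

lemma hom3_ext {f g : B3 →* K} (h1 : f s1 = g s1) (h2 : f s2 = g s2) : f = g := by
  apply PresentedGroup.ext
  intro i
  fin_cases i
  · exact h1
  · exact h2

end

lemma closure_B3 : Subgroup.closure ({s1, s2} : Set B3) = ⊤ := by
  rw [eq_top_iff, ← PresentedGroup.closure_range_of, Subgroup.closure_le]
  rintro _ ⟨i, rfl⟩
  apply Subgroup.subset_closure
  fin_cases i
  · exact Or.inl rfl
  · exact Or.inr rfl

/-- the fold `D 0 → B3` -/
def F3 : D 0 →* B3 := liftS (l := fun _ => s1) (c := s2) ⟨fun _ _ => rfl, fun _ => s_braid⟩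

@[simp] lemma F3_lv (i : Fin 4) : F3 (lv i) = s1 := liftS_lv _ i
@[simp] lemma F3_cc : F3 cc = s2 := liftS_cc _

lemma F3_pm (σ : Equiv.Perm (Fin 4)) (x : D 0) : F3 (pm σ x) = F3 x := by
  have h : F3.comp (pm σ).toMonoidHom = F3 := by
    apply homS_ext
    · intro i
      change F3 (pm σ (lv i)) = F3 (lv i)
      simp
    · change F3 (pm σ cc) = F3 cc
      simp
  exact DFunLike.congr_fun h x

/-- the representation `B3 → SL(2, ℤ)` -/
def sl : B3 →* SL := lift3 mA_braid

@[simp] lemma sl_1 : sl s1 = mA := lift3_1 _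
@[simp] lemma sl_2 : sl s2 = mB := lift3_2 _

/-- the central element `(s1 s2)³` -/
def z3 : B3 := (s1 * s2) ^ 3

/-- the exponent sum -/
def len3 : B3 →* Multiplicative ℤ :=
  lift3 (x := Multiplicative.ofAdd (1 : ℤ)) (y := Multiplicative.ofAdd 1) rfl

@[simp] lemma len3_1 : len3 s1 = Multiplicative.ofAdd 1 := lift3_1 _
@[simp] lemma len3_2 : len3 s2 = Multiplicative.ofAdd 1 := lift3_2 _

lemma len3_z : len3 z3 = Multiplicative.ofAdd 6 := by
  unfold z3
  rw [map_pow, map_mul, len3_1, len3_2]
  rfl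

lemma len3_F3 (x : D 0) : len3 (F3 x) = lenD 0 x := by
  have h : len3.comp F3 = lenD 0 := by
    apply homS_ext
    · intro i; rw [MonoidHom.comp_apply, F3_lv, len3_1, lenD_lv]
    · rw [MonoidHom.comp_apply, F3_cc, len3_2, lenD_cc]
  exact DFunLike.congr_fun h x

/-- the kernel of `B3 → PSL(2, ℤ)` -/
theorem sl_ker {x : B3} (h : sl x = 1 ∨ sl x = -1) : ∃ n : ℤ, x = z3 ^ n :=
  ker_B3 s_braid sl_1 sl_2 (by rw [closure_B3]; trivial) h

lemma sl_z3 : sl z3 = -1 := by
  unfold z3
  rw [map_pow, map_mul, sl_1, sl_2]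
  ext i j
  fin_cases i <;> fin_cases j <;>
    simp [mA, mB, pow_succ, Matrix.mul_apply, Fin.sum_univ_two]

/-- the element `z3` is central -/
theorem z3_comm (x : B3) : z3 * x = x * z3 := by
  have hle : Subgroup.closure ({s1, s2} : Set B3) ≤ Subgroup.centralizer {z3} := by
    rw [Subgroup.closure_le]
    have hx : (s1 * s2) ^ 3 = (s1 * s2 * s1) * (s1 * s2 * s1) := by
      calc (s1 * s2) ^ 3 = s1 * s2 * s1 * (s2 * s1 * s2) := by
            simp only [pow_succ, pow_zero, one_mul, mul_assoc]
        _ = _ := by rw [← s_braid]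
    have h1 : (s1 * s2 * s1) * s1 = s2 * (s1 * s2 * s1) := by
      calc (s1 * s2 * s1) * s1 = (s2 * s1 * s2) * s1 := by rw [s_braid]
        _ = s2 * (s1 * s2 * s1) := by simp only [mul_assoc]
    have h2 : (s1 * s2 * s1) * s2 = s1 * (s1 * s2 * s1) := by
      calc (s1 * s2 * s1) * s2 = s1 * (s2 * s1 * s2) := by simp only [mul_assoc]
        _ = _ := by rw [← s_braid]
    rintro y (rfl | rfl)
    · rw [SetLike.mem_coe, Subgroup.mem_centralizer_singleton_iff]
      unfold z3
      rw [hx]
      calc s1 * (s1 * s2 * s1 * (s1 * s2 * s1)) = s1 * (s1 * s2 * s1) * (s1 * s2 * s1) := by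
            simp only [mul_assoc]
        _ = (s1 * s2 * s1) * (s2 * (s1 * s2 * s1)) := by rw [← h2]; simp only [mul_assoc]
        _ = _ := by rw [← h1]; simp only [mul_assoc]
    · rw [SetLike.mem_coe, Subgroup.mem_centralizer_singleton_iff]
      unfold z3
      rw [hx]
      calc s2 * (s1 * s2 * s1 * (s1 * s2 * s1)) = s2 * (s1 * s2 * s1) * (s1 * s2 * s1) := by
            simp only [mul_assoc]
        _ = (s1 * s2 * s1) * (s1 * (s1 * s2 * s1)) := by rw [← h1]; simp only [mul_assoc]
        _ = _ := by rw [← h2]; simp only [mul_assoc]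
  have h : x ∈ Subgroup.closure ({s1, s2} : Set B3) := by rw [closure_B3]; trivial
  have h1 := hle h
  rw [Subgroup.mem_centralizer_singleton_iff] at h1
  exact h1.symm

end Pool.Agent.Helper7.D4
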