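import Pool.Agent.Helper7.D4.Nil

/-!
# Project D4: the matrix of an automorphism over the fold
-/

namespace Pool.Agent.Helper7.D4

open Pool.Agent.Helper38.BN Pool.Agent.Helper20.DN

/-- the matrix of an automorphism, applied to a vector -/
noncomputable def Rr (φ : MulAut (D 0)) (e : Fin 4 → ℤ) (j : Fin 4) : ℤ := (co e (φ (lv j))).1

section
variable {φ : MulAut (D 0)}

lemma Rr_lin (e e' : Fin 4 → ℤ) (a b : ℤ) (j : Fin 4) :
    Rr φ (fun i => a * e i + b * e' i) j = a * Rr φ e j + b * Rr φ e' j := by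
  unfold Rr
  rw [co_lin]
  simp

lemma F3_inv (hφ : ∀ y, F3 (φ y) = F3 y) (y : D 0) : F3 (φ⁻¹ y) = F3 y := by
  rw [← hφ, MulAut.apply_inv_self]

lemma Rr_one (hφ : ∀ y, F3 (φ y) = F3 y) (j : Fin 4) : Rr φ (fun _ => 1) j = 1 := by
  unfold Rr
  rw [co_one, cob_F3 (hφ _), cob_lv]
  simp

lemma co_comp (hφ : ∀ y, F3 (φ y) = F3 y) (e : Fin 4 → ℤ) (y : D 0) :
    co e (φ y) = co (Rr φ e) y + cob ((co e (φ cc)).2, 0) y :=
  ((co_is e).comp hφ).eq_co y

/-- divisibility -/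
lemma prim (hφ : ∀ y, F3 (φ y) = F3 y) {e e' : Fin 4 → ℤ} {a s : ℤ}
    (h : ∀ j, Rr φ e j = a + s * e' j) (j : Fin 4) : s ∣ e j - a := by
  have h1 : Rr φ e = fun j => a * (fun _ => (1 : ℤ)) j + s * e' j := by
    funext j; rw [h]; ring
  have h2 := co_comp hφ e (φ⁻¹ (lv j))
  rw [MulAut.apply_inv_self, h1, co_lin, co_one, cob_F3 (F3_inv hφ _), cob_F3 (F3_inv hφ _),
    cob_lv, cob_lv, co_lv] at h2
  have h3 := congrArg Prod.fst h2
  simp only [Prod.fst_add, Prod.smul_fst, smul_eq_mul] at h3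
  exact ⟨(co e' (φ⁻¹ (lv j))).1, by linarith⟩

lemma Rr_surj (hφ : ∀ y, F3 (φ y) = F3 y) (e : Fin 4 → ℤ) :
    ∃ e', ∀ j, Rr φ e' j = e j := by
  refine ⟨Rr φ⁻¹ e, fun j => ?_⟩
  have h1 := co_comp (φ := φ⁻¹) (F3_inv hφ) e (φ (lv j))
  rw [MulAut.inv_apply_self, co_lv, cob_F3 (hφ _), cob_lv] at h1
  have h2 := congrArg Prod.fst h1
  simp only [Prod.fst_add] at h2
  unfold Rr at h2 ⊢
  linarith

/-- for a vector with entries `0`, `1` the entries of the image differ by at most `1` -/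
lemma step01 (hφ : ∀ y, F3 (φ y) = F3 y) {e : Fin 4 → ℤ} (he : ∀ i, e i = 0 ∨ e i = 1)
    (j l : Fin 4) : Rr φ e j - Rr φ e l = 0 ∨ Rr φ e j - Rr φ e l = 1 ∨
      Rr φ e j - Rr φ e l = -1 := by
  by_cases hcst : ∀ i, e i = e 0
  · -- constant vectors
    left
    have h1 : e = fun i => e 0 * (fun _ => (1 : ℤ)) i + 0 * (fun _ => (0 : ℤ)) i := by
      funext i; rw [hcst i]; ring
    rw [h1, Rr_lin, Rr_lin, Rr_one hφ, Rr_one hφ]
    ring
  · push Not at hcst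
    obtain ⟨i₁, hi₁⟩ := hcst
    obtain ⟨C, hC⟩ := co_two he hφ
    -- the minimal value
    obtain ⟨m, -, hm⟩ := Finset.exists_min_image Finset.univ (Rr φ e) ⟨0, Finset.mem_univ _⟩
    -- a maximal value
    obtain ⟨M, -, hM⟩ := Finset.exists_max_image Finset.univ (Rr φ e) ⟨0, Finset.mem_univ _⟩
    have hm' : ∀ i, Rr φ e m ≤ Rr φ e i := fun i => hm i (Finset.mem_univ _)
    have hM' : ∀ i, Rr φ e i ≤ Rr φ e M := fun i => hM i (Finset.mem_univ _)
    set s := Rr φ e M - Rr φ e m with hs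
    have hs0 : 0 ≤ s := by linarith [hm' M]
    have hval : ∀ i, Rr φ e i = Rr φ e m ∨ Rr φ e i = Rr φ e m + s := by
      intro i
      rcases hC i m with h | h
      · left
        change Rr φ e i - Rr φ e m = 0 at h
        linarith
      · rcases hC M m with h' | h'
        · left
          change Rr φ e M - Rr φ e m = 0 at h'
          linarith [hM' i, hm' i]
        · change (Rr φ e i - Rr φ e m) ^ 2 = C at h
          change (Rr φ e M - Rr φ e m) ^ 2 = C at h'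
          right
          have h3 : (Rr φ e i - Rr φ e m) ^ 2 = s ^ 2 := by rw [h, hs, h']
          rcases sq_eq_sq_iff_eq_or_eq_neg.1 h3 with h4 | h4
          · linarith
          · linarith [hm' i, hM' i, hm' M]
    choose! e' he' using fun i => show ∃ x : ℤ, (x = 0 ∨ x = 1) ∧ Rr φ e i = Rr φ e m + s * x by
      rcases hval i with h | h
      · exact ⟨0, Or.inl rfl, by rw [h]; ring⟩
      · exact ⟨1, Or.inr rfl, by rw [h]; ring⟩
    have hd := prim hφ (fun j => (he' j).2)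
    have h1 : s ∣ e i₁ - e 0 := by
      have := Dvd.dvd.sub (hd i₁) (hd 0)
      have e1 : e i₁ - Rr φ e m - (e 0 - Rr φ e m) = e i₁ - e 0 := by ring
      rwa [e1] at this
    have h2 : s ∣ 1 := by
      rcases he i₁ with h | h <;> rcases he 0 with h' | h'
      · exact absurd (h.trans h'.symm) hi₁
      · rw [h, h'] at h1; simpa using h1
      · rw [h, h'] at h1; simpa using h1
      · exact absurd (h.trans h'.symm) hi₁
    have h3 : s = 1 := Int.eq_one_of_dvd_one hs0 h2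
    rcases hval j with h | h <;> rcases hval l with h' | h'
    · left; rw [h, h']; ring
    · right; right; rw [h, h', h3]; ring
    · right; left; rw [h, h', h3]; ring
    · left; rw [h, h']; ring

end

/-! ### the finite classification -/

/-- the basis vectors -/
def ev (i : Fin 4) : Fin 4 → ℤ := fun j => if j = i then 1 else 0

/-- a vector with sum `0` all of whose partial sums are `0`, `1` or `-1` -/
lemma root_of {d : Fin 4 → ℤ} (h0 : d 0 + d 1 + d 2 + d 3 = 0)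
    (h : ∀ e : Fin 4 → ℤ, (∀ i, e i = 0 ∨ e i = 1) →
      (e 0 * d 0 + e 1 * d 1 + e 2 * d 2 + e 3 * d 3 = 0 ∨
        e 0 * d 0 + e 1 * d 1 + e 2 * d 2 + e 3 * d 3 = 1 ∨
        e 0 * d 0 + e 1 * d 1 + e 2 * d 2 + e 3 * d 3 = -1)) :
    ∃ a b : Fin 4, ∀ i, d i = ev a i - ev b i := by
  have key : ∀ x y z w : ℤ, (x = 0 ∨ x = 1) → (y = 0 ∨ y = 1) → (z = 0 ∨ z = 1) → (w = 0 ∨ w = 1) →
      (x * d 0 + y * d 1 + z * d 2 + w * d 3 = 0 ∨ x * d 0 + y * d 1 + z * d 2 + w * d 3 = 1 ∨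
        x * d 0 + y * d 1 + z * d 2 + w * d 3 = -1) := by
    intro x y z w hx hy hz hw
    refine h ![x, y, z, w] (fun i => ?_)
    fin_cases i
    · exact hx
    · exact hy
    · exact hz
    · exact hw
  have k0 := key 1 0 0 0 (by omega) (by omega) (by omega) (by omega)
  have k1 := key 0 1 0 0 (by omega) (by omega) (by omega) (by omega)
  have k2 := key 0 0 1 0 (by omega) (by omega) (by omega) (by omega)
  have k3 := key 0 0 0 1 (by omega) (by omega) (by omega) (by omega)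
  have k01 := key 1 1 0 0 (by omega) (by omega) (by omega) (by omega)
  have k02 := key 1 0 1 0 (by omega) (by omega) (by omega) (by omega)
  have k03 := key 1 0 0 1 (by omega) (by omega) (by omega) (by omega)
  clear key h
  have hb : ∀ i : Fin 4, d i = -1 ∨ d i = 0 ∨ d i = 1 := by
    intro i
    fin_cases i
    · change d 0 = -1 ∨ d 0 = 0 ∨ d 0 = 1; omega
    · change d 1 = -1 ∨ d 1 = 0 ∨ d 1 = 1; omega
    · change d 2 = -1 ∨ d 2 = 0 ∨ d 2 = 1; omega
    · change d 3 = -1 ∨ d 3 = 0 ∨ d 3 = 1; omega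
  have fin : ∀ (f : Fin 4 → ℤ) (a b : Fin 4), (∀ i, d i = f i) → (∀ i, f i = ev a i - ev b i) →
      ∃ a b : Fin 4, ∀ i, d i = ev a i - ev b i := fun f a b h1 h2 =>
    ⟨a, b, fun i => (h1 i).trans (h2 i)⟩
  have all : ∀ x y z w : ℤ, d 0 = x → d 1 = y → d 2 = z → d 3 = w → ∀ i, d i = ![x, y, z, w] i := by
    intro x y z w h1 h2 h3 h4 i
    fin_cases i
    · exact h1
    · exact h2
    · exact h3
    · exact h4
  rcases hb 0 with h0' | h0' | h0' <;> rcases hb 1 with h1' | h1' | h1' <;>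
    rcases hb 2 with h2' | h2' | h2' <;> rcases hb 3 with h3' | h3' | h3' <;>
    first
      | (exfalso; omega)
      | exact fin _ 0 0 (all _ _ _ _ h0' h1' h2' h3') (by decide)
      | exact fin _ 0 1 (all _ _ _ _ h0' h1' h2' h3') (by decide)
      | exact fin _ 0 2 (all _ _ _ _ h0' h1' h2' h3') (by decide)
      | exact fin _ 0 3 (all _ _ _ _ h0' h1' h2' h3') (by decide)
      | exact fin _ 1 0 (all _ _ _ _ h0' h1' h2' h3') (by decide)
      | exact fin _ 1 2 (all _ _ _ _ h0' h1' h2' h3') (by decide)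
      | exact fin _ 1 3 (all _ _ _ _ h0' h1' h2' h3') (by decide)
      | exact fin _ 2 0 (all _ _ _ _ h0' h1' h2' h3') (by decide)
      | exact fin _ 2 1 (all _ _ _ _ h0' h1' h2' h3') (by decide)
      | exact fin _ 2 3 (all _ _ _ _ h0' h1' h2' h3') (by decide)
      | exact fin _ 3 0 (all _ _ _ _ h0' h1' h2' h3') (by decide)
      | exact fin _ 3 1 (all _ _ _ _ h0' h1' h2' h3') (by decide)
      | exact fin _ 3 2 (all _ _ _ _ h0' h1' h2' h3') (by decide)

/-- three roots whose differences are roots -/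
lemma three_roots : ∀ a₁ b₁ a₂ b₂ a₃ b₃ : Fin 4, a₁ ≠ b₁ → a₂ ≠ b₂ → a₃ ≠ b₃ →
    ((a₁ = a₂ ∧ b₁ ≠ b₂) ∨ (b₁ = b₂ ∧ a₁ ≠ a₂)) →
    ((a₁ = a₃ ∧ b₁ ≠ b₃) ∨ (b₁ = b₃ ∧ a₁ ≠ a₃)) →
    ((a₂ = a₃ ∧ b₂ ≠ b₃) ∨ (b₂ = b₃ ∧ a₂ ≠ a₃)) →
    (a₁ = a₂ ∧ a₂ = a₃ ∧ b₁ ≠ b₂ ∧ b₁ ≠ b₃ ∧ b₂ ≠ b₃) ∨
      (b₁ = b₂ ∧ b₂ = b₃ ∧ a₁ ≠ a₂ ∧ a₁ ≠ a₃ ∧ a₂ ≠ a₃) := by
  decide

/-- the difference of two roots -/
lemma root_sub : ∀ a b a' b' c c' : Fin 4, a ≠ b → a' ≠ b' → c ≠ c' →
    (∀ i, ev a i - ev b i - (ev a' i - ev b' i) = ev c i - ev c' i) →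
    ((a = a' ∧ b ≠ b') ∨ (b = b' ∧ a ≠ a')) := by
  decide

/-- the classification of the matrices -/
theorem cls {M : Fin 4 → Fin 4 → ℤ} (h1 : ∀ j l, j ≠ l → M j ≠ M l)
    (h2 : ∀ j l, ∃ a b : Fin 4, ∀ i, M j i - M l i = ev a i - ev b i) :
    ∃ (σ : Equiv.Perm (Fin 4)) (s : ℤ) (r : Fin 4 → ℤ), (s = 1 ∨ s = -1) ∧
      ∀ j i, M j i = s * ev (σ j) i + r i := by
  have hne : ∀ j l, j ≠ l → ∃ a b : Fin 4, a ≠ b ∧ ∀ i, M j i - M l i = ev a i - ev b i := by
    intro j l hjl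
    obtain ⟨a, b, h⟩ := h2 j l
    refine ⟨a, b, ?_, h⟩
    rintro rfl
    apply h1 j l hjl
    funext i
    have := h i
    linarith
  obtain ⟨a₁, b₁, n₁, r₁⟩ := hne 1 0 (by decide)
  obtain ⟨a₂, b₂, n₂, r₂⟩ := hne 2 0 (by decide)
  obtain ⟨a₃, b₃, n₃, r₃⟩ := hne 3 0 (by decide)
  have hsub : ∀ {a b a' b' : Fin 4} {j l : Fin 4}, a ≠ b → a' ≠ b' → j ≠ l →
      (∀ i, M j i - M 0 i = ev a i - ev b i) → (∀ i, M l i - M 0 i = ev a' i - ev b' i) →
      ((a = a' ∧ b ≠ b') ∨ (b = b' ∧ a ≠ a')) := by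
    intro a b a' b' j l hab hab' hjl h3 h4
    obtain ⟨c, c', hc, h5⟩ := hne j l hjl
    refine root_sub a b a' b' c c' hab hab' hc (fun i => ?_)
    rw [← h3, ← h4, ← h5]
    ring
  have k12 := hsub n₁ n₂ (by decide) r₁ r₂
  have k13 := hsub n₁ n₃ (by decide) r₁ r₃
  have k23 := hsub n₂ n₃ (by decide) r₂ r₃
  rcases three_roots a₁ b₁ a₂ b₂ a₃ b₃ n₁ n₂ n₃ k12 k13 k23 with
    ⟨e1, e2, d1, d2, d3⟩ | ⟨e1, e2, d1, d2, d3⟩
  · subst e1 e2
    have hinj : Function.Injective ![a₁, b₁, b₂, b₃] := by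
      intro i j hij
      fin_cases i <;> fin_cases j <;>
        first
          | rfl
          | (exfalso; simp at hij; first
              | exact n₁ hij | exact n₂ hij | exact n₃ hij | exact d1 hij | exact d2 hij
              | exact d3 hij | exact n₁ hij.symm | exact n₂ hij.symm | exact n₃ hij.symm
              | exact d1 hij.symm | exact d2 hij.symm | exact d3 hij.symm)
    refine ⟨Equiv.ofBijective _ (Finite.injective_iff_bijective.1 hinj), -1,
      fun i => M 0 i + ev a₁ i, Or.inr rfl, ?_⟩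
    intro j i
    fin_cases j
    · change M 0 i = -1 * ev a₁ i + (M 0 i + ev a₁ i); ring
    · change M 1 i = -1 * ev b₁ i + (M 0 i + ev a₁ i); linarith [r₁ i]
    · change M 2 i = -1 * ev b₂ i + (M 0 i + ev a₁ i); linarith [r₂ i]
    · change M 3 i = -1 * ev b₃ i + (M 0 i + ev a₁ i); linarith [r₃ i]
  · subst e1 e2
    have hinj : Function.Injective ![b₁, a₁, a₂, a₃] := by
      intro i j hij
      fin_cases i <;> fin_cases j <;>
        first
          | rfl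
          | (exfalso; simp at hij; first
              | exact n₁ hij | exact n₂ hij | exact n₃ hij | exact d1 hij | exact d2 hij
              | exact d3 hij | exact n₁ hij.symm | exact n₂ hij.symm | exact n₃ hij.symm
              | exact d1 hij.symm | exact d2 hij.symm | exact d3 hij.symm)
    refine ⟨Equiv.ofBijective _ (Finite.injective_iff_bijective.1 hinj), 1,
      fun i => M 0 i - ev b₁ i, Or.inl rfl, ?_⟩
    intro j i
    fin_cases j
    · change M 0 i = 1 * ev b₁ i + (M 0 i - ev b₁ i); ring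
    · change M 1 i = 1 * ev a₁ i + (M 0 i - ev b₁ i); linarith [r₁ i]
    · change M 2 i = 1 * ev a₂ i + (M 0 i - ev b₁ i); linarith [r₂ i]
    · change M 3 i = 1 * ev a₃ i + (M 0 i - ev b₁ i); linarith [r₃ i]

lemma vec_eq (e : Fin 4 → ℤ) : e = fun i => 1 * (fun i => e 0 * ev 0 i + e 1 * ev 1 i) i +
    1 * (fun i => e 2 * ev 2 i + e 3 * ev 3 i) i := by
  funext i
  fin_cases i <;> simp [ev]

lemma Rr_vec {φ : MulAut (D 0)} (e : Fin 4 → ℤ) (j : Fin 4) :
    Rr φ e j = e 0 * Rr φ (ev 0) j + e 1 * Rr φ (ev 1) j + e 2 * Rr φ (ev 2) j +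
      e 3 * Rr φ (ev 3) j := by
  conv_lhs => rw [vec_eq e]
  rw [Rr_lin, Rr_lin, Rr_lin]
  ring

/-- the matrix of an automorphism over the fold -/
theorem Rr_form {φ : MulAut (D 0)} (hφ : ∀ y, F3 (φ y) = F3 y) :
    ∃ (σ : Equiv.Perm (Fin 4)) (s : ℤ) (r : Fin 4 → ℤ), (s = 1 ∨ s = -1) ∧
      ∀ j i, Rr φ (ev i) j = s * ev (σ j) i + r i := by
  refine cls (M := fun j i => Rr φ (ev i) j) (fun j l hjl h => ?_) (fun j l => ?_)
  · obtain ⟨e, he⟩ := Rr_surj hφ (ev j)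
    have h1 : Rr φ e j = Rr φ e l := by
      have h2 : ∀ i, Rr φ (ev i) j = Rr φ (ev i) l := fun i => congrFun h i
      rw [Rr_vec, Rr_vec e l, h2, h2, h2, h2]
    rw [he, he] at h1
    simp only [ev, if_pos] at h1
    rw [if_neg (Ne.symm hjl)] at h1
    exact one_ne_zero h1
  · refine root_of ?_ (fun e he => ?_)
    · have h1 := Rr_one hφ j
      have h2 := Rr_one hφ l
      rw [Rr_vec] at h1 h2
      linarith
    · have h1 := step01 hφ he j l
      rw [Rr_vec, Rr_vec e l] at h1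
      have e1 : e 0 * (Rr φ (ev 0) j - Rr φ (ev 0) l) + e 1 * (Rr φ (ev 1) j - Rr φ (ev 1) l) +
          e 2 * (Rr φ (ev 2) j - Rr φ (ev 2) l) + e 3 * (Rr φ (ev 3) j - Rr φ (ev 3) l) =
          e 0 * Rr φ (ev 0) j + e 1 * Rr φ (ev 1) j + e 2 * Rr φ (ev 2) j +
            e 3 * Rr φ (ev 3) j -
          (e 0 * Rr φ (ev 0) l + e 1 * Rr φ (ev 1) l + e 2 * Rr φ (ev 2) l +
            e 3 * Rr φ (ev 3) l) := by ring
      rw [e1]
      exact h1

end Pool.Agent.Helper7.D4
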