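import Pool.Agent.Helper7.D4.Basic

/-!
# Project D4: cocycles on `D 0` over the fold `F3 : D 0 → B3`
-/

namespace Pool.Agent.Helper7.D4

open Pool.Agent.Helper38.BN Pool.Agent.Helper20.DN

section
variable {N : Type*} [Group N] {ρ : B3 →* MulAut N}

/-- cocycles on `D 0` with values in a group with an action of `B3` -/
def IsC (ρ : B3 →* MulAut N) (c : D 0 → N) : Prop :=
  ∀ x y, c (x * y) = c x * ρ (F3 x) (c y)

/-- the existence of cocycles with given values on the generators -/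
theorem exists_c (ρ : B3 →* MulAut N) (u : Fin 4 → N) (v : N)
    (h1 : ∀ i j, u i * ρ s1 (u j) = u j * ρ s1 (u i))
    (h2 : ∀ i, u i * ρ s1 v * ρ s1 (ρ s2 (u i)) = v * ρ s2 (u i) * ρ s2 (ρ s1 v)) :
    ∃ c, IsC ρ c ∧ (∀ i, c (lv i) = u i) ∧ c cc = v := by
  have hst : Star (fun i => (⟨u i, s1⟩ : N ⋊[ρ] B3)) ⟨v, s2⟩ := by
    refine ⟨fun i j => ?_, fun i => ?_⟩
    · apply SemidirectProduct.ext
      · exact h1 i j
      · rfl
    · apply SemidirectProduct.ext
      · have h := h2 i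
        simp only [SemidirectProduct.mul_left, SemidirectProduct.mul_right, map_mul,
          MulAut.mul_apply]
        exact h
      · exact s_braid
  have hr : ∀ x, (liftS hst x).right = F3 x := by
    intro x
    have h : SemidirectProduct.rightHom.comp (liftS hst) = F3 := by
      apply homS_ext
      · intro i
        rw [MonoidHom.comp_apply, liftS_lv, F3_lv]
        rfl
      · rw [MonoidHom.comp_apply, liftS_cc, F3_cc]
        rfl
    exact DFunLike.congr_fun h x
  refine ⟨fun x => (liftS hst x).left, fun x y => ?_, fun i => ?_, ?_⟩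
  · change (liftS hst (x * y)).left = _
    rw [map_mul, SemidirectProduct.mul_left, hr]
  · change (liftS hst (lv i)).left = _
    rw [liftS_lv]
  · change (liftS hst cc).left = _
    rw [liftS_cc]

variable {c c' : D 0 → N}

lemma IsC.one (h : IsC ρ c) : c 1 = 1 := by
  have h1 := h 1 1
  rw [mul_one, map_one, map_one, MulAut.one_apply] at h1
  exact (left_eq_mul.1 h1)

lemma IsC.inv (h : IsC ρ c) (x : D 0) : ρ (F3 x) (c x⁻¹) = (c x)⁻¹ := by
  have h1 := h x x⁻¹
  rw [mul_inv_cancel, h.one] at h1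
  exact (inv_eq_of_mul_eq_one_right h1.symm).symm

/-- cocycles are determined by the values on the generators -/
lemma IsC.ext (h : IsC ρ c) (h' : IsC ρ c') (hl : ∀ i, c (lv i) = c' (lv i))
    (hc : c cc = c' cc) (x : D 0) : c x = c' x := by
  have hx : x ∈ Subgroup.closure (insert cc (Set.range lv)) := by rw [closure_star]; trivial
  induction hx using Subgroup.closure_induction with
  | mem x hx =>
    rcases hx with rfl | ⟨i, rfl⟩
    · exact hc
    · exact hl i
  | one => rw [h.one, h'.one]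
  | mul x y _ _ hx hy => rw [h, h', hx, hy]
  | inv x _ hx =>
    apply (ρ (F3 x)).injective
    rw [h.inv, h'.inv, hx]

/-- composition with an endomorphism over `B3` -/
lemma IsC.comp (h : IsC ρ c) {φ : MulAut (D 0)} (hφ : ∀ y, F3 (φ y) = F3 y) :
    IsC ρ (fun y => c (φ y)) := fun x y => by
  change c (φ (x * y)) = c (φ x) * ρ (F3 x) (c (φ y))
  rw [map_mul, h, hφ]

/-- the relations -/
lemma IsC.eqs (h : IsC ρ c) : (∀ i j, c (lv i) * ρ s1 (c (lv j)) = c (lv j) * ρ s1 (c (lv i))) ∧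
    ∀ i, c (lv i) * ρ s1 (c cc) * ρ s1 (ρ s2 (c (lv i))) =
      c cc * ρ s2 (c (lv i)) * ρ s2 (ρ s1 (c cc)) := by
  refine ⟨fun i j => ?_, fun i => ?_⟩
  · have h1 := h (lv i) (lv j)
    rw [star.comm, h, F3_lv, F3_lv] at h1
    exact h1.symm
  · have h1 := congrArg c (star.braid i)
    rw [h, h, h, h, map_mul F3, map_mul F3, F3_lv, F3_cc, map_mul, map_mul] at h1
    exact h1

end

/-! ### the action on `ℤ × ℤ` -/

/-- the linear automorphisms of `ℤ × ℤ` -/
abbrev LA : Type := (ℤ × ℤ) ≃ₗ[ℤ] (ℤ × ℤ)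

/-- the action of `s1` -/
def SA1 : LA where
  toFun v := (v.1 + v.2, v.2)
  invFun v := (v.1 - v.2, v.2)
  left_inv v := by ext <;> simp
  right_inv v := by ext <;> simp
  map_add' v w := by
    ext
    · simp only [Prod.fst_add, Prod.snd_add]; ring
    · simp only [Prod.snd_add]
  map_smul' m v := by
    ext
    · simp only [Prod.smul_fst, Prod.smul_snd, smul_eq_mul, eq_intCast, Int.cast_id]; ring
    · simp

/-- the action of `s2` -/
def SA2 : LA where
  toFun v := (v.1, v.2 - v.1)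
  invFun v := (v.1, v.2 + v.1)
  left_inv v := by ext <;> simp
  right_inv v := by ext <;> simp
  map_add' v w := by
    ext
    · simp only [Prod.fst_add]
    · simp only [Prod.fst_add, Prod.snd_add]; ring
  map_smul' m v := by
    ext
    · simp
    · simp only [Prod.smul_fst, Prod.smul_snd, smul_eq_mul, eq_intCast, Int.cast_id]; ring

@[simp] lemma SA1_apply (a b : ℤ) : SA1 (a, b) = (a + b, b) := rfl
@[simp] lemma SA2_apply (a b : ℤ) : SA2 (a, b) = (a, b - a) := rfl

lemma SA_braid : SA1 * SA2 * SA1 = SA2 * SA1 * SA2 := by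
  refine LinearEquiv.ext fun v => ?_
  change ((v.1 + v.2 + (v.2 - (v.1 + v.2)), v.2 - (v.1 + v.2)) : ℤ × ℤ) =
    (v.1 + (v.2 - v.1), v.2 - v.1 - (v.1 + (v.2 - v.1)))
  rw [Prod.mk.injEq]
  constructor <;> ring

/-- the action of `B3` on `ℤ × ℤ` -/
def act : B3 →* LA := lift3 SA_braid

@[simp] lemma act_1 : act s1 = SA1 := lift3_1 _
@[simp] lemma act_2 : act s2 = SA2 := lift3_2 _

lemma act_mul (g h : B3) (v : ℤ × ℤ) : act (g * h) v = act g (act h v) := by
  rw [map_mul]; rfl

lemma act_one (v : ℤ × ℤ) : act 1 v = v := by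
  rw [map_one]; rfl

lemma act_inv (g : B3) (v : ℤ × ℤ) : act g (act g⁻¹ v) = v := by
  rw [← act_mul, mul_inv_cancel, act_one]

lemma act_inv' (g : B3) (v : ℤ × ℤ) : act g⁻¹ (act g v) = v := by
  rw [← act_mul, inv_mul_cancel, act_one]

lemma act_z3 (v : ℤ × ℤ) : act z3 v = -v := by
  obtain ⟨a, b⟩ := v
  unfold z3
  rw [pow_succ, pow_succ, pow_one, act_mul, act_mul, act_mul, act_mul, act_mul, act_1, act_2]
  simp only [SA1_apply, SA2_apply, Prod.neg_mk, Prod.mk.injEq]
  constructor <;> ring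

/-- vectors fixed by `B3` vanish -/
lemma act_fix {v : ℤ × ℤ} (h1 : act s1 v = v) (h2 : act s2 v = v) : v = 0 := by
  obtain ⟨a, b⟩ := v
  rw [act_1, SA1_apply, Prod.mk.injEq] at h1
  rw [act_2, SA2_apply, Prod.mk.injEq] at h2
  have h3 : b = 0 := by linarith [h1.1]
  have h4 : a = 0 := by linarith [h2.2]
  rw [h3, h4]
  rfl

/-- cocycles with values in `ℤ × ℤ` -/
def IsCo (c : D 0 → ℤ × ℤ) : Prop := ∀ x y, c (x * y) = c x + act (F3 x) (c y)

theorem exists_co (e : Fin 4 → ℤ) (q : ℤ) :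
    ∃ c, IsCo c ∧ (∀ i, c (lv i) = (e i, 0)) ∧ c cc = (0, q) := by
  let ρ : B3 →* MulAut (Multiplicative (ℤ × ℤ)) :=
    { toFun := fun g => AddEquiv.toMultiplicative (act g).toAddEquiv
      map_one' := by rw [map_one]; rfl
      map_mul' := fun g h => by rw [map_mul]; rfl }
  have hρ : ∀ g v, ρ g (Multiplicative.ofAdd v) = Multiplicative.ofAdd (act g v) := fun g v => rfl
  obtain ⟨c, hc, h1, h2⟩ := exists_c ρ (fun i => Multiplicative.ofAdd (e i, 0))
    (Multiplicative.ofAdd (0, q))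
    (fun i j => by
      rw [hρ, hρ, act_1, SA1_apply, SA1_apply, ← ofAdd_add, ← ofAdd_add]
      congr 1
      rw [Prod.mk_add_mk, Prod.mk_add_mk, Prod.mk.injEq]
      constructor <;> ring)
    (fun i => by
      rw [hρ, hρ, hρ, hρ, act_1, act_2, SA1_apply, SA2_apply, SA1_apply, SA2_apply,
        ← ofAdd_add, ← ofAdd_add, ← ofAdd_add, ← ofAdd_add]
      congr 1
      rw [Prod.mk_add_mk, Prod.mk_add_mk, Prod.mk_add_mk, Prod.mk_add_mk, Prod.mk.injEq]
      constructor <;> dsimp only <;> ring)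
  refine ⟨fun x => Multiplicative.toAdd (c x), fun x y => ?_, fun i => ?_, ?_⟩
  · change Multiplicative.toAdd (c (x * y)) = _
    rw [hc]
    rfl
  · change Multiplicative.toAdd (c (lv i)) = _
    rw [h1]
    rfl
  · change Multiplicative.toAdd (c cc) = _
    rw [h2]
    rfl

section
variable {c c' : D 0 → ℤ × ℤ}

lemma IsCo.one (h : IsCo c) : c 1 = 0 := by
  have h1 := h 1 1
  rw [mul_one, map_one, act_one] at h1
  exact (left_eq_add.1 h1)

lemma IsCo.inv (h : IsCo c) (x : D 0) : c x⁻¹ = -act (F3 x)⁻¹ (c x) := by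
  have h1 := h x⁻¹ x
  rw [inv_mul_cancel, h.one, map_inv F3] at h1
  exact eq_neg_of_add_eq_zero_left h1.symm

lemma IsCo.ext (h : IsCo c) (h' : IsCo c') (hl : ∀ i, c (lv i) = c' (lv i))
    (hc : c cc = c' cc) (x : D 0) : c x = c' x := by
  have hx : x ∈ Subgroup.closure (insert cc (Set.range lv)) := by rw [closure_star]; trivial
  induction hx using Subgroup.closure_induction with
  | mem x hx =>
    rcases hx with rfl | ⟨i, rfl⟩
    · exact hc
    · exact hl i
  | one => rw [h.one, h'.one]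
  | mul x y _ _ hx hy => rw [h, h', hx, hy]
  | inv x _ hx => rw [h.inv, h'.inv, hx]

lemma IsCo.comp (h : IsCo c) {φ : MulAut (D 0)} (hφ : ∀ y, F3 (φ y) = F3 y) :
    IsCo (fun y => c (φ y)) := fun x y => by
  change c (φ (x * y)) = c (φ x) + act (F3 x) (c (φ y))
  rw [map_mul, h, hφ]

lemma IsCo.add (h : IsCo c) (h' : IsCo c') : IsCo (fun y => c y + c' y) := fun x y => by
  change c (x * y) + c' (x * y) = c x + c' x + act (F3 x) (c y + c' y)
  rw [h, h', map_add]
  abel

lemma IsCo.smul (h : IsCo c) (a : ℤ) : IsCo (fun y => a • c y) := fun x y => by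
  change a • c (x * y) = a • c x + act (F3 x) (a • c y)
  rw [h, map_zsmul, smul_add]

/-- the coboundaries -/
def cob (X : ℤ × ℤ) (y : D 0) : ℤ × ℤ := X - act (F3 y) X

lemma isCo_cob (X : ℤ × ℤ) : IsCo (cob X) := fun x y => by
  unfold cob
  rw [map_mul F3, act_mul, map_sub]
  abel

lemma cob_lv (a b : ℤ) (i : Fin 4) : cob (a, b) (lv i) = (-b, 0) := by
  unfold cob
  rw [F3_lv, act_1, SA1_apply]
  ext <;> simp

lemma cob_cc (a b : ℤ) : cob (a, b) cc = (0, a) := by
  unfold cob
  rw [F3_cc, act_2, SA2_apply]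
  ext <;> simp

lemma cob_F3 {X : ℤ × ℤ} {x y : D 0} (h : F3 x = F3 y) : cob X x = cob X y := by
  unfold cob
  rw [h]

/-- the shape of the values of cocycles -/
theorem IsCo.eqs (h : IsCo c) : (∀ i, (c (lv i)).2 = 0) ∧ (c cc).1 = 0 := by
  have h1 : ∀ i, c (lv i) + act s1 (c cc) + act s1 (act s2 (c (lv i))) =
      c cc + act s2 (c (lv i)) + act s2 (act s1 (c cc)) := by
    intro i
    have h1 := congrArg c (star.braid i)
    rw [h, h, h, h, map_mul F3, map_mul F3, F3_lv, F3_cc, act_mul, act_mul] at h1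
    exact h1
  have key : ∀ i, (c (lv i)).2 = 0 ∧ (c cc).1 = 0 := by
    intro i
    have h2 := h1 i
    clear h1
    generalize c (lv i) = u at *
    generalize c cc = w at *
    obtain ⟨x, y⟩ := u
    obtain ⟨a, b⟩ := w
    rw [act_1, act_2, SA1_apply, SA2_apply, SA1_apply, SA2_apply, Prod.mk_add_mk,
      Prod.mk_add_mk, Prod.mk_add_mk, Prod.mk_add_mk, Prod.mk.injEq] at h2
    obtain ⟨h3, h4⟩ := h2
    constructor
    · change y = 0; linarith
    · change a = 0; linarith
  exact ⟨fun i => (key i).1, (key 0).2⟩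

end

/-- the cocycle with the values `(e i, 0)` at the leaves and `0` at the center -/
noncomputable def co (e : Fin 4 → ℤ) : D 0 → ℤ × ℤ := Classical.choose (exists_co e 0)

lemma co_is (e : Fin 4 → ℤ) : IsCo (co e) := (Classical.choose_spec (exists_co e 0)).1
@[simp] lemma co_lv (e : Fin 4 → ℤ) (i : Fin 4) : co e (lv i) = (e i, 0) :=
  (Classical.choose_spec (exists_co e 0)).2.1 i
@[simp] lemma co_cc (e : Fin 4 → ℤ) : co e cc = 0 := (Classical.choose_spec (exists_co e 0)).2.2

lemma co_lin (e e' : Fin 4 → ℤ) (a b : ℤ) (y : D 0) :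
    co (fun i => a * e i + b * e' i) y = a • co e y + b • co e' y := by
  refine (co_is _).ext (((co_is e).smul a).add ((co_is e').smul b)) (fun i => ?_) ?_ y
  · change co _ (lv i) = a • co e (lv i) + b • co e' (lv i)
    rw [co_lv, co_lv, co_lv]
    ext <;> simp
  · change co _ cc = a • co e cc + b • co e' cc
    rw [co_cc, co_cc, co_cc]
    simp

lemma co_one (y : D 0) : co (fun _ => 1) y = cob (0, -1) y := by
  refine (co_is _).ext (isCo_cob _) (fun i => ?_) ?_ y
  · rw [co_lv, cob_lv]; simp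
  · rw [co_cc, cob_cc]; rfl

/-- every cocycle is `co e` plus a coboundary -/
theorem IsCo.eq_co {c : D 0 → ℤ × ℤ} (h : IsCo c) (y : D 0) :
    c y = co (fun i => (c (lv i)).1) y + cob ((c cc).2, 0) y := by
  obtain ⟨h1, h2⟩ := h.eqs
  refine h.ext ((co_is _).add (isCo_cob _)) (fun i => ?_) ?_ y
  · change c (lv i) = co _ (lv i) + cob _ (lv i)
    rw [co_lv, cob_lv]
    ext
    · simp
    · rw [h1]; simp
  · change c cc = co _ cc + cob _ cc
    rw [co_cc, cob_cc]
    ext
    · rw [h2]; simp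
    · simp

/-- permutations of the leaves -/
lemma co_pm (e : Fin 4 → ℤ) (σ : Equiv.Perm (Fin 4)) (y : D 0) :
    co e (pm σ y) = co (fun i => e (σ i)) y := by
  refine ((co_is e).comp (F3_pm σ)).ext (co_is _) (fun i => ?_) ?_ y
  · change co e (pm σ (lv i)) = _
    rw [pm_lv, co_lv, co_lv]
  · change co e (pm σ cc) = _
    rw [pm_cc, co_cc, co_cc]

/-- the kernel of the fold: `co` is additive -/
lemma IsCo.mul_ker {c : D 0 → ℤ × ℤ} (h : IsCo c) {x : D 0} (hx : ∀ v, act (F3 x) v = v) (y : D 0) :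
    c (x * y) = c x + c y := by
  rw [h, hx]

/-- a cocycle on conjugates -/
lemma IsCo.conj {c : D 0 → ℤ × ℤ} (h : IsCo c) (x y : D 0) :
    c (x * y * x⁻¹) = c x + act (F3 x) (c y) - act (F3 (x * y * x⁻¹)) (c x) := by
  rw [h, h, h.inv, map_mul F3, map_mul F3, map_mul F3, map_neg, map_inv F3, act_mul _ _ (c x)]
  abel

end Pool.Agent.Helper7.D4
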