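import Pool.Agent.Helper7.D4.Basic
import Pool.Agent.Helper38.BT.SlB
import Pool.Agent.Helper7.AG.Sl4

/-!
# Project D4: normalization of the fold

Every automorphism of `D 0` is compatible with the fold `F3 : D 0 → B3`, up to an inner
automorphism and `ε`.
-/

namespace Pool.Agent.Helper7.D4

open Matrix
open Pool.Agent.Helper38.BN Pool.Agent.Helper20.DN
open Pool.Agent.Helper7.AG (SL mA mB mA_braid tr tr_AB class_AB closure_AB)

lemma F3_surj : Function.Surjective F3 := by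
  have h : F3.range = ⊤ := by
    rw [eq_top_iff, ← closure_B3, Subgroup.closure_le]
    rintro y (rfl | rfl)
    · exact ⟨lv 0, F3_lv 0⟩
    · exact ⟨cc, F3_cc⟩
  exact MonoidHom.range_eq_top.1 h

lemma sl_surj : Function.Surjective sl := by
  have h : sl.range = ⊤ := by
    rw [eq_top_iff, ← closure_AB, Subgroup.closure_le]
    rintro y (rfl | rfl)
    · exact ⟨s1, sl_1⟩
    · exact ⟨s2, sl_2⟩
  exact MonoidHom.range_eq_top.1 h

/-- elements of `B3` with the same image up to sign and lengths `± 1` -/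
lemma eq_of_sl {x y : B3} (h : sl x = sl y ∨ sl x = -sl y)
    (hl : len3 x = Multiplicative.ofAdd 1 ∨ len3 x = Multiplicative.ofAdd (-1))
    (hy : len3 y = Multiplicative.ofAdd 1) : x = y := by
  have h1 : sl (x * y⁻¹) = 1 ∨ sl (x * y⁻¹) = -1 := by
    rcases h with h | h
    · left; rw [map_mul, map_inv, h, mul_inv_cancel]
    · right
      rw [map_mul, map_inv, h, neg_mul, mul_inv_cancel]
  obtain ⟨n, hn⟩ := sl_ker h1
  have h2 : x = z3 ^ n * y := by rw [← hn, inv_mul_cancel_right]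
  have h3 := congrArg len3 h2
  rw [map_mul, map_zpow, len3_z, hy] at h3
  have h4 : (Multiplicative.ofAdd (6 : ℤ)) ^ n * Multiplicative.ofAdd 1 =
      Multiplicative.ofAdd (n * 6 + 1) := by
    rw [← ofAdd_zsmul, ← ofAdd_add, smul_eq_mul]
  rw [h4] at h3
  have h5 : n = 0 := by
    rcases hl with hl | hl
    · rw [hl] at h3
      have := Multiplicative.ofAdd.injective h3
      omega
    · rw [hl] at h3
      have := Multiplicative.ofAdd.injective h3
      omega
  rw [h2, h5, zpow_zero, one_mul]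

private lemma sl_of_mat {X Y M : SL} {s : ℤ} (hs : s = 1 ∨ s = -1)
    (h : (X : Matrix (Fin 2) (Fin 2) ℤ) * (M : Matrix (Fin 2) (Fin 2) ℤ) =
      s • ((M : Matrix (Fin 2) (Fin 2) ℤ) * (Y : Matrix (Fin 2) (Fin 2) ℤ))) :
    M⁻¹ * X * M = Y ∨ M⁻¹ * X * M = -Y := by
  rcases hs with rfl | rfl
  · left
    have h1 : X * M = M * Y := by
      apply Subtype.ext
      rw [one_smul] at h
      exact h
    rw [mul_assoc, h1, inv_mul_cancel_left]
  · right
    have h1 : X * M = M * -Y := by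
      apply Subtype.ext
      change _ = (M : Matrix (Fin 2) (Fin 2) ℤ) * -(Y : Matrix (Fin 2) (Fin 2) ℤ)
      rw [mul_neg, ← neg_one_smul ℤ ((M : Matrix (Fin 2) (Fin 2) ℤ) * _)]
      exact h
    rw [mul_assoc, h1, inv_mul_cancel_left]

/-- the case of determinant one -/
lemma norm_aux (f : D 0 →* B3) {M : Matrix (Fin 2) (Fin 2) ℤ} {s : ℤ} (hM : M.det = 1)
    (hs : s = 1 ∨ s = -1)
    (hl : ∀ y : D 0, lenD 0 y = Multiplicative.ofAdd 1 →
      len3 (f y) = Multiplicative.ofAdd 1 ∨ len3 (f y) = Multiplicative.ofAdd (-1))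
    (hA : ∀ i, ((sl (f (lv i)) : SL) : Matrix (Fin 2) (Fin 2) ℤ) * M =
      s • (M * (mA : Matrix (Fin 2) (Fin 2) ℤ)))
    (hC : ((sl (f cc) : SL) : Matrix (Fin 2) (Fin 2) ℤ) * M =
      s • (M * (mB : Matrix (Fin 2) (Fin 2) ℤ))) :
    ∃ x : B3, ∀ y, x * f y * x⁻¹ = F3 y := by
  obtain ⟨x, hx'⟩ := sl_surj (⟨M, hM⟩ : SL)
  have hl : ∀ y : D 0, lenD 0 y = Multiplicative.ofAdd 1 →
      len3 (x⁻¹ * f y * x) = Multiplicative.ofAdd 1 ∨
      len3 (x⁻¹ * f y * x) = Multiplicative.ofAdd (-1) := by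
    intro y hy
    have e : len3 (x⁻¹ * f y * x) = len3 (f y) := by
      rw [map_mul, map_mul, map_inv, mul_comm, mul_inv_cancel_left]
    rw [e]
    exact hl y hy
  refine ⟨x⁻¹, fun y => ?_⟩
  have key : (MulAut.conj x⁻¹).toMonoidHom.comp f = F3 := by
    apply homS_ext
    · intro i
      change x⁻¹ * f (lv i) * x⁻¹⁻¹ = F3 (lv i)
      rw [inv_inv, F3_lv]
      refine eq_of_sl ?_ (hl _ (lenD_lv i)) len3_1
      rw [map_mul, map_mul, map_inv, hx', sl_1]
      exact sl_of_mat hs (hA i)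
    · change x⁻¹ * f cc * x⁻¹⁻¹ = F3 cc
      rw [inv_inv, F3_cc]
      refine eq_of_sl ?_ (hl _ lenD_cc) len3_2
      rw [map_mul, map_mul, map_inv, hx', sl_2]
      exact sl_of_mat hs hC
  exact DFunLike.congr_fun key y

lemma inv_mat {X : SL} {M Y : Matrix (Fin 2) (Fin 2) ℤ} {s : ℤ} (hs : s = 1 ∨ s = -1)
    {Z : SL} (hY : Y = (Z : Matrix (Fin 2) (Fin 2) ℤ))
    (h : (X : Matrix (Fin 2) (Fin 2) ℤ) * M = s • (M * Y)) :
    ((X⁻¹ : SL) : Matrix (Fin 2) (Fin 2) ℤ) * M = s • (M * ((Z⁻¹ : SL) :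
      Matrix (Fin 2) (Fin 2) ℤ)) := by
  subst hY
  have h1 : ((X⁻¹ : SL) : Matrix (Fin 2) (Fin 2) ℤ) * (X : Matrix (Fin 2) (Fin 2) ℤ) = 1 := by
    rw [← Matrix.SpecialLinearGroup.coe_mul, inv_mul_cancel, Matrix.SpecialLinearGroup.coe_one]
  have h2 : ((Z : SL) : Matrix (Fin 2) (Fin 2) ℤ) * ((Z⁻¹ : SL) : Matrix (Fin 2) (Fin 2) ℤ) = 1 := by
    rw [← Matrix.SpecialLinearGroup.coe_mul, mul_inv_cancel, Matrix.SpecialLinearGroup.coe_one]
  have h3 : M = s • (((X⁻¹ : SL) : Matrix (Fin 2) (Fin 2) ℤ) * (M * (Z : Matrix (Fin 2) (Fin 2) ℤ))) := by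
    rw [← Matrix.mul_smul, ← h, ← Matrix.mul_assoc, h1, Matrix.one_mul]
  have hss : s * s = 1 := by rcases hs with rfl | rfl <;> norm_num
  calc ((X⁻¹ : SL) : Matrix (Fin 2) (Fin 2) ℤ) * M
      = ((X⁻¹ : SL) : Matrix (Fin 2) (Fin 2) ℤ) * (M * ((Z : Matrix (Fin 2) (Fin 2) ℤ) *
          ((Z⁻¹ : SL) : Matrix (Fin 2) (Fin 2) ℤ))) := by rw [h2, Matrix.mul_one]
    _ = (s * s) • (((X⁻¹ : SL) : Matrix (Fin 2) (Fin 2) ℤ) * (M * (Z : Matrix (Fin 2) (Fin 2) ℤ)) *
          ((Z⁻¹ : SL) : Matrix (Fin 2) (Fin 2) ℤ)) := by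
        rw [hss, one_smul]; simp only [Matrix.mul_assoc]
    _ = s • ((s • (((X⁻¹ : SL) : Matrix (Fin 2) (Fin 2) ℤ) * (M * (Z : Matrix (Fin 2) (Fin 2) ℤ)))) *
          ((Z⁻¹ : SL) : Matrix (Fin 2) (Fin 2) ℤ)) := by
        rw [mul_smul, Matrix.smul_mul]
    _ = s • (M * ((Z⁻¹ : SL) : Matrix (Fin 2) (Fin 2) ℤ)) := by rw [← h3]

/-- normalization of homomorphisms to the braid group on three strands.
Proof. Let `A i`, `C` be the images of `lv i`, `cc` under `sl ∘ f`; they generate `SL`. If `A 0`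
commutes with `C`, then `A 0 = C` (braid relation), so all `A i` commute with `C` and `A i = C`, the
group would be commutative, but `mA mB ≠ mB mA`. So `class_B` (BT/SlB.lean) gives `A i = A 0`;
`closure {A 0, C} = ⊤`; `tr_AB` and `class_AB` (Helper7/AG) give `M`, `s`. If `M.det = 1`: `norm_aux`. If
`M.det = -1`: let `J = !![1, 0; 0, -1]`; `norm_aux` for `f ∘ ε` and `M * J`: `f (ε (lv i)) = (f (lv i))⁻¹`,
`inv_mat`, `mA⁻¹ J = J mA`, `mB⁻¹ J = J mB`. -/
theorem norm_gen (F : D 0 →* B3) (hF : ∀ y : SL, ∃ w, sl (F w) = y)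
    (hl : ∀ y : D 0, lenD 0 y = Multiplicative.ofAdd 1 →
      len3 (F y) = Multiplicative.ofAdd 1 ∨ len3 (F y) = Multiplicative.ofAdd (-1)) :
    ∃ (x : B3) (e : Bool),
    ∀ y, x * F ((if e then eps 0 else 1 : MulAut (D 0)) y) * x⁻¹ = F3 y := by
  obtain ⟨f, hf⟩ : ∃ f : D 0 →* SL, ∀ x, f x = sl (F x) := ⟨sl.comp F, fun x => rfl⟩
  have hst := star.map f
  have hsurj : Function.Surjective f := by
    intro y
    obtain ⟨w, hw⟩ := hF y
    exact ⟨w, by rw [hf, hw]⟩
  have hgen : Subgroup.closure (insert (f cc) (Set.range fun i => f (lv i)) : Set SL) = ⊤ := by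
    have h1 : f '' (insert cc (Set.range lv)) = insert (f cc) (Set.range fun i => f (lv i)) := by
      rw [Set.image_insert_eq, ← Set.range_comp]
      rfl
    rw [← h1, ← MonoidHom.map_closure, closure_star]
    exact Subgroup.map_top_of_surjective f hsurj
  have hn : f (lv 0) * f cc ≠ f cc * f (lv 0) := by
    intro hc
    have h0 : f (lv 0) = f cc := by
      have h := hst.braid 0
      rw [hc] at h
      exact mul_left_cancel h
    have h1 : ∀ i, f (lv i) = f cc := by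
      intro i
      have h2 := hst.comm i 0
      rw [h0] at h2
      have h3 := hst.braid i
      rw [h2] at h3
      exact mul_left_cancel h3
    have h2 : (insert (f cc) (Set.range fun i => f (lv i)) : Set SL) = {f cc} := by
      ext y
      simp only [Set.mem_insert_iff, Set.mem_range, Set.mem_singleton_iff]
      constructor
      · rintro (h | ⟨i, h⟩)
        · exact h
        · rw [← h, h1]
      · intro h; exact Or.inl h
    rw [h2, ← Subgroup.zpowers_eq_closure] at hgen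
    have h3 : ∀ y : SL, y ∈ Subgroup.zpowers (f cc) := fun y => by rw [hgen]; trivial
    obtain ⟨a, ha⟩ := Subgroup.mem_zpowers_iff.1 (h3 mA)
    obtain ⟨b, hb⟩ := Subgroup.mem_zpowers_iff.1 (h3 mB)
    have h4 : mA * mB = mB * mA := by
      rw [← ha, ← hb, ← _root_.zpow_add, ← _root_.zpow_add, add_comm a b]
    have h5 := congrArg (fun X : SL => X 0 0) h4
    simp [mA, mB, Matrix.mul_apply] at h5
  have hA : ∀ i, f (lv i) = f (lv 0) := fun i =>
    Pool.Agent.Helper38.BT.class_B (hst.comm 0 i) (hst.braid 0) (hst.braid i) hn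
  obtain ⟨ht, ht', -⟩ := tr_AB (hst.braid 0) hn
  have hgen2 : Subgroup.closure ({f (lv 0), f cc} : Set SL) = ⊤ := by
    rw [eq_top_iff, ← hgen, Subgroup.closure_le]
    rintro y (rfl | ⟨i, rfl⟩)
    · exact Subgroup.subset_closure (by simp)
    · change f (lv i) ∈ _
      rw [hA i]
      exact Subgroup.subset_closure (by simp)
  obtain ⟨M, s, hM, hs, hAM, hCM⟩ := class_AB (hst.braid 0) ht ht' hgen2
  rcases hM with hM | hM
  · obtain ⟨x, hx⟩ := norm_aux F hM hs hl (fun i => by rw [← hf, hA i]; exact hAM)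
      (by rw [← hf]; exact hCM)
    exact ⟨x, false, fun y => by simpa using hx y⟩
  · have hJ : (M * !![1, 0; 0, -1]).det = 1 := by
      rw [Matrix.det_mul, hM, Matrix.det_fin_two]; simp
    have hJA : (((mA : SL)⁻¹ : SL) : Matrix (Fin 2) (Fin 2) ℤ) * !![1, 0; 0, -1] =
        !![1, 0; 0, -1] * (mA : Matrix (Fin 2) (Fin 2) ℤ) := by
      ext i j
      fin_cases i <;> fin_cases j <;>
        simp [mA, Matrix.SpecialLinearGroup.coe_inv, Matrix.adjugate_fin_two, Matrix.mul_apply]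
    have hJB : (((mB : SL)⁻¹ : SL) : Matrix (Fin 2) (Fin 2) ℤ) * !![1, 0; 0, -1] =
        !![1, 0; 0, -1] * (mB : Matrix (Fin 2) (Fin 2) ℤ) := by
      ext i j
      fin_cases i <;> fin_cases j <;>
        simp [mB, Matrix.SpecialLinearGroup.coe_inv, Matrix.adjugate_fin_two, Matrix.mul_apply]
    have heps : ∀ y : D 0, (F.comp (eps 0 : MulAut (D 0)).toMonoidHom) y =
        F ((eps 0 : MulAut (D 0)) y) := fun y => rfl
    have hleps : ∀ y : D 0, lenD 0 ((eps 0 : MulAut (D 0)) y) = (lenD 0 y)⁻¹ := by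
      intro y
      have h : (lenD 0).comp (eps 0 : MulAut (D 0)).toMonoidHom = (lenD 0)⁻¹ := by
        apply homS_ext
        · intro i
          change lenD 0 ((eps 0 : MulAut (D 0)) (lv i)) = (lenD 0 (lv i))⁻¹
          rw [eps_lv, map_inv]
        · change lenD 0 ((eps 0 : MulAut (D 0)) cc) = (lenD 0 cc)⁻¹
          rw [eps_cc, map_inv]
      exact DFunLike.congr_fun h y
    obtain ⟨x, hx⟩ := norm_aux (F.comp (eps 0 : MulAut (D 0)).toMonoidHom) hJ hs
      (fun y hy => by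
        have h1 := hl ((eps 0 : MulAut (D 0)) y)⁻¹ (by rw [map_inv, hleps, hy, inv_inv])
        rw [heps]
        rw [map_inv, map_inv] at h1
        rcases h1 with h1 | h1
        · right
          rw [inv_eq_iff_eq_inv] at h1
          rw [h1, ofAdd_neg]
        · left
          rw [inv_eq_iff_eq_inv] at h1
          rw [h1, ofAdd_neg, inv_inv])
      (fun i => by
        rw [heps, eps_lv, map_inv, map_inv, ← Matrix.mul_assoc,
          inv_mat hs rfl (by rw [← hf, hA i]; exact hAM), Matrix.smul_mul, Matrix.mul_assoc, hJA,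
          Matrix.mul_assoc])
      (by
        rw [heps, eps_cc, map_inv, map_inv, ← Matrix.mul_assoc,
          inv_mat hs rfl (by rw [← hf]; exact hCM), Matrix.smul_mul, Matrix.mul_assoc, hJB,
          Matrix.mul_assoc])
    exact ⟨x, true, fun y => by simpa using hx y⟩

/-- every automorphism of `D 0` is compatible with the fold, up to an inner automorphism and `ε` -/
theorem norm1 (φ : MulAut (D 0)) : ∃ (x : D 0) (e : Bool),
    ∀ y, F3 (x * φ ((if e then eps 0 else 1 : MulAut (D 0)) y) * x⁻¹) = F3 y := by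
  obtain ⟨x, e, h⟩ := norm_gen (F3.comp φ.toMonoidHom) (fun y => by
      obtain ⟨x, hx⟩ := sl_surj y
      obtain ⟨z, hz⟩ := F3_surj x
      obtain ⟨w, hw⟩ := φ.surjective z
      refine ⟨w, ?_⟩
      change sl (F3 (φ w)) = y
      rw [hw, hz, hx]) (fun y hy => by
      change len3 (F3 (φ y)) = _ ∨ len3 (F3 (φ y)) = _
      rw [len3_F3]
      rcases len_aut φ with h | h
      · left; rw [h, hy]
      · right; rw [h, hy]; rfl)
  obtain ⟨x', rfl⟩ := F3_surj x
  refine ⟨x', e, fun y => ?_⟩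
  rw [map_mul, map_mul, map_inv]
  exact h y

end Pool.Agent.Helper7.D4
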