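import Pool.Agent.Helper7.D4.Cls
import Pool.Agent.Helper7.D4.Norm1
import Pool.Agent.Helper38.DN.S1

/-!
# Project D4: the normal form of automorphisms over the fold
-/

namespace Pool.Agent.Helper7.D4

open Pool.Agent.Helper38.BN Pool.Agent.Helper20.DN Equiv
open Pool.Agent.Helper38.DN (piFD piD piFD_a piFD_b piFD_e)

/-! ### the permutation in terms of a cocycle -/

def Pm : Perm (Fin 4) := swap 0 1 * swap 2 3
def Qm : Perm (Fin 4) := swap 0 3 * swap 1 2

lemma Pm_Qm : Commute Pm Qm := by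
  change Pm * Qm = Qm * Pm
  decide

/-- the four-group -/
def Vv (v : ℤ × ℤ) : Perm (Fin 4) := Pm ^ v.1 * Qm ^ v.2

lemma Vv_add (v w : ℤ × ℤ) : Vv (v + w) = Vv v * Vv w := by
  unfold Vv
  rw [Prod.fst_add, Prod.snd_add, _root_.zpow_add, _root_.zpow_add, mul_assoc, mul_assoc,
    ← mul_assoc (Qm ^ v.2), ← (Pm_Qm.zpow_zpow w.1 v.2).eq, mul_assoc]

/-- the permutations of the braid group on three strands -/
def rho4 : B3 →* Perm (Fin 4) :=
  lift3 (x := (swap 2 3 : Perm (Fin 4))) (y := (swap 1 2 : Perm (Fin 4))) (by decide)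

@[simp] lemma rho4_1 : rho4 s1 = swap 2 3 := lift3_1 _
@[simp] lemma rho4_2 : rho4 s2 = swap 1 2 := lift3_2 _

lemma Vv_act (g : B3) (v : ℤ × ℤ) : Vv (act g v) = rho4 g * Vv v * (rho4 g)⁻¹ := by
  have hg : g ∈ Subgroup.closure ({s1, s2} : Set B3) := by rw [closure_B3]; trivial
  induction hg using Subgroup.closure_induction generalizing v with
  | mem g hg =>
    rcases hg with rfl | hg
    · obtain ⟨a, b⟩ := v
      rw [act_1, SA1_apply, rho4_1]
      unfold Vv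
      have h1 : (swap 2 3 : Perm (Fin 4)) * Pm * (swap 2 3)⁻¹ = Pm := by decide
      have h2 : (swap 2 3 : Perm (Fin 4)) * Qm * (swap 2 3)⁻¹ = Pm * Qm := by decide
      rw [← conj_mul, ← conj_zpow, ← conj_zpow, h1, h2, Pm_Qm.mul_zpow, ← mul_assoc,
        ← _root_.zpow_add]
    · rw [Set.mem_singleton_iff] at hg
      subst hg
      obtain ⟨a, b⟩ := v
      rw [act_2, SA2_apply, rho4_2]
      unfold Vv
      have h1 : (swap 1 2 : Perm (Fin 4)) * Pm * (swap 1 2)⁻¹ = Pm * Qm⁻¹ := by decide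
      have h2 : (swap 1 2 : Perm (Fin 4)) * Qm * (swap 1 2)⁻¹ = Qm := by decide
      rw [← conj_mul, ← conj_zpow, ← conj_zpow, h1, h2, Pm_Qm.inv_right.mul_zpow, mul_assoc,
        inv_zpow', ← _root_.zpow_add, neg_add_eq_sub]
  | one => rw [act_one, map_one, one_mul, inv_one, mul_one]
  | mul g h _ _ hg hh =>
    rw [act_mul, hg, hh, map_mul, mul_inv_rev]
    simp only [mul_assoc]
  | inv g _ hg =>
    have h1 := hg (act g⁻¹ v)
    rw [act_inv] at h1
    rw [h1, map_inv rho4]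
    group

/-- the vector of the pair of the first two leaves -/
def eP : Fin 4 → ℤ := fun i => 1 * ev 0 i + 1 * ev 1 i

/-- the permutation -/
noncomputable def pi4 : D 0 →* Perm (Fin 4) :=
  MonoidHom.mk' (fun y => Vv (co eP y) * rho4 (F3 y)) (fun x y => by
    rw [co_is, Vv_add, Vv_act, map_mul, map_mul]
    group)

lemma pi4_apply (y : D 0) : pi4 y = Vv (co eP y) * rho4 (F3 y) := rfl

lemma pi4_eq (y : D 0) : pi4 y = piFD 0 y := by
  have h : pi4 = (piFD 0 : D 0 →* Perm (Fin 4)) := by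
    have h0 : (piFD 0 (aD 0) : Perm (Fin 4)) = swap 0 1 := by
      have h := piFD_a (p := 0) (j := 0) (by omega)
      rw [h]; rfl
    have h1 : (piFD 0 (aD 1) : Perm (Fin 4)) = swap 1 2 := by
      have h := piFD_a (p := 0) (j := 1) (by omega)
      rw [h]; rfl
    have h2 : (piFD 0 (aD 2) : Perm (Fin 4)) = swap 2 3 := by
      have h := piFD_a (p := 0) (j := 2) (by omega)
      rw [h]; rfl
    have h3 : (piFD 0 bD : Perm (Fin 4)) = swap 2 3 := by
      have h := piFD_b (p := 0)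
      rw [h]; rfl
    have h4 : (piFD 0 eD : Perm (Fin 4)) = swap 0 1 := by
      have h := piFD_e (p := 0)
      rw [h]; rfl
    have e0 : Vv (1, 0) * swap 2 3 = swap 0 1 := by
      unfold Vv; rw [zpow_one, zpow_zero]; decide
    have e1 : Vv (0, 0) * swap 2 3 = swap 2 3 := by
      unfold Vv; rw [zpow_zero, zpow_zero]; decide
    apply homS_ext
    · intro i
      rw [pi4_apply, co_lv, F3_lv, rho4_1]
      fin_cases i
      · change Vv (1, 0) * swap 2 3 = piFD 0 (aD 0)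
        rw [e0, h0]
      · change Vv (1, 0) * swap 2 3 = piFD 0 eD
        rw [e0, h4]
      · change Vv (0, 0) * swap 2 3 = piFD 0 (aD 2)
        rw [e1, h2]
      · change Vv (0, 0) * swap 2 3 = piFD 0 bD
        rw [e1, h3]
    · rw [pi4_apply, co_cc, F3_cc, rho4_2]
      change Vv 0 * swap 1 2 = piFD 0 (aD 1)
      rw [h1]
      unfold Vv
      simp
  exact DFunLike.congr_fun h y

/-! ### the normal form -/

/-- normalized automorphisms -/
structure Nm (φ : MulAut (D 0)) : Prop where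
  fold : ∀ y, F3 (φ y) = F3 y
  col : ∀ i, ∃ X, ∀ y, co (ev i) (φ y) = co (ev i) y + cob X y
  pi : ∀ y, piD 0 (φ y) = piD 0 y

lemma cob_add (X Y : ℤ × ℤ) (y : D 0) : cob (X + Y) y = cob X y + cob Y y := by
  unfold cob
  rw [map_add]
  abel

lemma cob_neg (X : ℤ × ℤ) (y : D 0) : cob (-X) y = -cob X y := by
  unfold cob
  rw [map_neg]
  abel

/-- the cocycle `co eP` maps the kernel of the fold onto `ℤ × ℤ` -/
lemma surj2 (X : ℤ × ℤ) : ∃ x, F3 x = 1 ∧ co eP x = X := by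
  have hk : ∀ {x y : D 0}, F3 x = 1 → F3 y = 1 → F3 (x * y) = 1 ∧ co eP (x * y) = co eP x + co eP y := by
    intro x y hx hy
    refine ⟨by rw [map_mul, hx, hy, mul_one], ?_⟩
    rw [co_is, hx, act_one]
  have hi : ∀ {x : D 0}, F3 x = 1 → F3 x⁻¹ = 1 ∧ co eP x⁻¹ = -co eP x := by
    intro x hx
    refine ⟨by rw [map_inv, hx, inv_one], ?_⟩
    rw [(co_is eP).inv, hx, inv_one, act_one]
  have hz : ∀ {x : D 0}, F3 x = 1 → ∀ n : ℤ, F3 (x ^ n) = 1 ∧ co eP (x ^ n) = n • co eP x := by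
    intro x hx n
    induction n using Int.induction_on with
    | zero => exact ⟨by rw [zpow_zero, map_one], by rw [zpow_zero, (co_is eP).one, zero_smul]⟩
    | succ n ih =>
      rw [_root_.zpow_add, zpow_one]
      obtain ⟨h1, h2⟩ := hk ih.1 hx
      exact ⟨h1, by rw [h2, ih.2, add_smul, one_smul]⟩
    | pred n ih =>
      rw [_root_.zpow_sub, zpow_one]
      obtain ⟨h1, h2⟩ := hk ih.1 (hi hx).1
      exact ⟨h1, by rw [h2, ih.2, (hi hx).2, sub_smul, one_smul, sub_eq_add_neg]⟩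
  have hu : F3 (lv 0 * (lv 2)⁻¹) = 1 ∧ co eP (lv 0 * (lv 2)⁻¹) = (1, 0) := by
    refine ⟨by rw [map_mul, map_inv, F3_lv, F3_lv, mul_inv_cancel], ?_⟩
    have h1 : co eP (lv 2) = 0 := by rw [co_lv]; rfl
    rw [co_is, (co_is eP).inv, h1, map_zero, neg_zero, map_zero, add_zero, co_lv]
    rfl
  have hv : F3 (cc * (lv 0 * (lv 2)⁻¹) * cc⁻¹) = 1 ∧
      co eP (cc * (lv 0 * (lv 2)⁻¹) * cc⁻¹) = (1, -1) := by
    have h1 : F3 (cc * (lv 0 * (lv 2)⁻¹) * cc⁻¹) = 1 := by
      rw [map_mul, map_mul, hu.1, mul_one, map_inv, mul_inv_cancel]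
    refine ⟨h1, ?_⟩
    rw [(co_is eP).conj, h1, hu.2, co_cc, map_zero, sub_zero, zero_add, F3_cc, act_2, SA2_apply]
    rfl
  obtain ⟨a, b⟩ := X
  refine ⟨(lv 0 * (lv 2)⁻¹) ^ (a + b) * (cc * (lv 0 * (lv 2)⁻¹) * cc⁻¹) ^ (-b), ?_⟩
  obtain ⟨h1, h2⟩ := hk (hz hu.1 (a + b)).1 (hz hv.1 (-b)).1
  refine ⟨h1, ?_⟩
  rw [h2, (hz hu.1 _).2, (hz hv.1 _).2, hu.2, hv.2]
  ext <;> simp

/-- the composition with a conjugation over a central element of `B3` -/
lemma co_conj {φ : MulAut (D 0)} {x : D 0} {u : ℤ} (hφ : ∀ y, F3 (φ y) = F3 y)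
    (hx : ∀ g, F3 x * g = g * F3 x) (hu : ∀ v, act (F3 x) v = u • v) (e : Fin 4 → ℤ) (y : D 0) :
    F3 ((MulAut.conj x * φ) y) = F3 y ∧
      co e ((MulAut.conj x * φ) y) = u • co e (φ y) + cob (co e x) y := by
  have h1 : F3 ((MulAut.conj x * φ) y) = F3 y := by
    change F3 (x * φ y * x⁻¹) = F3 y
    rw [map_mul, map_mul, hφ, hx, map_inv, mul_inv_cancel_right]
  refine ⟨h1, ?_⟩
  change co e (x * φ y * x⁻¹) = _
  change F3 (x * φ y * x⁻¹) = F3 y at h1
  rw [(co_is e).conj, h1, hu]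
  unfold cob
  abel

/-- every automorphism over the fold has a normal form -/
theorem exists_Nm1 {φ : MulAut (D 0)} (hφ : ∀ y, F3 (φ y) = F3 y) :
    ∃ (x : D 0) (τ : Perm (Fin 4)), Nm (MulAut.conj x * φ * pm τ) := by
  -- the sign
  obtain ⟨x₁, σ, r, h1, h2⟩ : ∃ (x : D 0) (σ : Perm (Fin 4)) (r : Fin 4 → ℤ),
      (∀ y, F3 ((MulAut.conj x * φ) y) = F3 y) ∧
      ∀ j i, Rr (MulAut.conj x * φ) (ev i) j = ev (σ j) i + r i := by
    obtain ⟨σ, s, r, hs, h⟩ := Rr_form hφ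
    rcases hs with rfl | rfl
    · refine ⟨1, σ, r, fun y => ?_, fun j i => ?_⟩
      · rw [map_one, one_mul, hφ]
      · rw [map_one, one_mul, h, one_mul]
    · obtain ⟨x, hx⟩ := F3_surj z3
      have h3 := fun (e : Fin 4 → ℤ) (y : D 0) => co_conj (φ := φ) (x := x) (u := -1) hφ
        (fun g => by rw [hx, z3_comm]) (fun v => by rw [hx, act_z3, neg_smul, one_smul]) e y
      refine ⟨x, σ, fun i => -(r i) - (co (ev i) x).2, fun y => (h3 0 y).1, fun j i => ?_⟩
      have h4 := (h3 (ev i) (lv j)).2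
      have h5 := h j i
      have h6 : cob (co (ev i) x) (lv j) = (-(co (ev i) x).2, 0) := cob_lv _ _ _
      rw [h6] at h4
      have h7 := congrArg Prod.fst h4
      simp only [Prod.fst_add, Prod.smul_fst, smul_eq_mul] at h7
      unfold Rr at h5 ⊢
      rw [h7, h5]
      ring
  -- the permutation
  have h3 : ∀ y, F3 ((MulAut.conj x₁ * φ * pm σ⁻¹) y) = F3 y := fun y => by
    rw [MulAut.mul_apply, h1, F3_pm]
  have h4 : ∀ i, Rr (MulAut.conj x₁ * φ * pm σ⁻¹) (ev i) =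
      fun j => 1 * ev i j + r i * (fun _ => (1 : ℤ)) j := by
    intro i
    funext j
    have h5 : Rr (MulAut.conj x₁ * φ * pm σ⁻¹) (ev i) j =
        Rr (MulAut.conj x₁ * φ) (ev i) (σ⁻¹ j) := by
      unfold Rr
      rw [MulAut.mul_apply, pm_lv]
    rw [h5, h2]
    have h6 : σ (σ⁻¹ j) = j := Equiv.apply_symm_apply σ j
    rw [h6]
    have h7 : ev j i = ev i j := by
      unfold ev
      by_cases h : i = j
      · subst h; rfl
      · rw [if_neg h, if_neg (Ne.symm h)]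
    rw [h7]
    ring
  have h5 : ∀ i, ∃ X, ∀ y, co (ev i) ((MulAut.conj x₁ * φ * pm σ⁻¹) y) =
      co (ev i) y + cob X y := by
    intro i
    refine ⟨((co (ev i) ((MulAut.conj x₁ * φ * pm σ⁻¹) cc)).2, 0) + r i • (0, -1), fun y => ?_⟩
    rw [co_comp h3, h4, co_lin, co_one, one_smul, cob_add]
    have h8 : cob (r i • ((0, -1) : ℤ × ℤ)) y = r i • cob (0, -1) y := by
      unfold cob
      rw [map_zsmul, smul_sub]
    rw [h8]
    abel
  -- the translation
  choose X hX using h5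
  obtain ⟨x₂, hx₂, hx₂'⟩ := surj2 (-(X 0 + X 1))
  have h6 := fun (e : Fin 4 → ℤ) (y : D 0) => co_conj (φ := MulAut.conj x₁ * φ * pm σ⁻¹)
    (x := x₂) (u := 1) h3 (fun g => by rw [hx₂, one_mul, mul_one])
    (fun v => by rw [hx₂, act_one, one_smul]) e y
  have h7 : MulAut.conj (x₂ * x₁) * φ * pm σ⁻¹ =
      MulAut.conj x₂ * (MulAut.conj x₁ * φ * pm σ⁻¹) := by
    rw [map_mul]
    simp only [mul_assoc]
  refine ⟨x₂ * x₁, σ⁻¹, ?_⟩
  rw [h7]
  have hP : ∀ y, co eP ((MulAut.conj x₂ * (MulAut.conj x₁ * φ * pm σ⁻¹)) y) = co eP y := by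
    intro y
    rw [(h6 eP y).2, one_smul, hx₂', cob_neg, cob_add]
    have h8 : ∀ z, co eP z = co (ev 0) z + co (ev 1) z := by
      intro z
      unfold eP
      rw [co_lin, one_smul, one_smul]
    rw [h8, h8 y, hX, hX]
    abel
  refine ⟨fun y => (h6 0 y).1, fun i => ?_, fun y => ?_⟩
  · refine ⟨X i + co (ev i) x₂, fun y => ?_⟩
    rw [(h6 (ev i) y).2, one_smul, hX, cob_add]
    abel
  · have h8 : piFD 0 ((MulAut.conj x₂ * (MulAut.conj x₁ * φ * pm σ⁻¹)) y) = piFD 0 y := by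
      rw [← pi4_eq, ← pi4_eq, pi4_apply, pi4_apply, hP, (h6 0 y).1]
    change extF _ (piFD 0 _) = extF _ (piFD 0 y)
    rw [h8]

/-- every automorphism has a normal form -/
theorem exists_Nm (φ : MulAut (D 0)) : ∃ (x : D 0) (e : Bool) (τ : Perm (Fin 4)),
    Nm (MulAut.conj x * φ * (if e then eps 0 else 1 : MulAut (D 0)) * pm τ) := by
  obtain ⟨x, e, h⟩ := norm1 φ
  obtain ⟨x', τ, h'⟩ := exists_Nm1
    (φ := MulAut.conj x * (φ * (if e then eps 0 else 1 : MulAut (D 0)))) h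
  refine ⟨x' * x, e, τ, ?_⟩
  rw [map_mul]
  have h1 : MulAut.conj x' * (MulAut.conj x * (φ * (if e then eps 0 else 1 : MulAut (D 0)))) *
      pm τ = MulAut.conj x' * MulAut.conj x * φ * (if e then eps 0 else 1 : MulAut (D 0)) *
        pm τ := by
    simp only [mul_assoc]
  rw [← h1]
  exact h'

end Pool.Agent.Helper7.D4
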