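import Pool.Agent.Helper7.D4.Pres
import Pool.Agent.Helper7.AG.Sl1
import Pool.Agent.Helper38.BT.SlD
import Pool.Agent.Helper54.BN.E6
import Pool.Agent.Helper16.DN.BrInner

/-!
# Project D4: automorphisms of the braid group on four strands
-/

namespace Pool.Agent.Helper7.D4

open Matrix
open Pool.Agent.Helper38.BN hiding RW
open Pool.Agent.Helper20.DN hiding L
open Equiv
open Pool.Agent.Helper7.AG (SL mA mB mA_braid tr tr_AB class_AB closure_AB)
open Pool.Agent.Helper38.DN (foldD foldD_a foldD_b foldD_e foldD_mem foldD_surj)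
open Pool.Agent.Helper16.DN (io io_a io_coe io_inj restrict p_restrict last exists_t L L_a L_lenD
  L_conj L_io_conj L_zeta Tr_zero fix_zero pi_io_zero)

/-! ### the homomorphism `HB 2 → B3` which forgets the first strand -/

/-- the homomorphism `a_0 ↦ s1`, `a_1 ↦ s2`, `d ↦ 1` -/
def rho2 : HB 2 →* B3 := liftH (a := fun j => if j = 0 then s1 else s2) (d := 1)
  { comm := fun i j h1 h2 => by omega
    braid := fun i h => by
      have e : i = 0 := by omega
      subst e
      exact s_braid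
    dcomm := fun i _ _ => by simp
    four := fun _ => by simp }

lemma rho2_a0 : rho2 (aH 0) = s1 := liftH_a _ (by omega)
lemma rho2_a1 : rho2 (aH 1) = s2 := liftH_a _ (by omega)
lemma rho2_d : rho2 dH = 1 := liftH_d _

lemma HB2_ind {S : Subgroup (HB 2)} (h0 : aH 0 ∈ S) (h1 : aH 1 ∈ S) (hd : dH ∈ S) (h : HB 2) :
    h ∈ S := by
  refine BTwo.HB_le (fun j hj => ?_) hd h
  have e : j = 0 ∨ j = 1 := by omega
  rcases e with rfl | rfl
  · exact h0
  · exact h1

lemma rho2_zz (j : ℕ) : rho2 (zz aH dH j) = 1 := by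
  induction j with
  | zero => exact rho2_d
  | succ j ih =>
    change rho2 ((aH j)⁻¹ * zz aH dH j * aH j) = 1
    rw [map_mul, map_mul, map_inv, ih, mul_one, inv_mul_cancel]

lemma rho2_zH (x : F 2) : rho2 (zH 2 x) = 1 := by
  have h : rho2.comp (zH 2) = 1 := by
    apply homF_ext
    intro i hi
    change rho2 (zH 2 (zF i)) = 1
    have h1 : zH 2 (zF i) = zz aH dH i := liftF_z _ hi
    rw [h1, rho2_zz]
  exact DFunLike.congr_fun h x

lemma rho2_ze : rho2 (zeH 2) = z3 := by
  rw [zeH_eq, map_mul, rho2_zH, one_mul]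
  unfold Om z3
  rw [map_pow]
  have h1 : rho2 (kap aH 2) = s1 * s2 := by
    change rho2 (1 * aH 0 * aH 1) = _
    rw [map_mul, map_mul, map_one, one_mul, rho2_a0, rho2_a1]
  rw [h1]

/-- the kernel of `rho2` -/
lemma rho2_ker {h : HB 2} (hh : rho2 h = 1) : ∃ x, h = zH 2 x := by
  obtain ⟨x, b, hb, rfl⟩ := HB_decomp h
  rw [map_mul, rho2_zH, one_mul] at hh
  have hbr : (aH 0 : HB 2) * aH 1 * aH 0 = aH 1 * aH 0 * aH 1 := (relH 2).braid 0 (by omega)
  have h1 : lift3 hbr (rho2 b) = b := by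
    have hle : BrH 2 ≤ ((lift3 hbr).comp rho2).eqLocus (MonoidHom.id (HB 2)) := by
      unfold BrH
      rw [Subgroup.closure_le]
      rintro _ ⟨j, hj, rfl⟩
      have hj' : j < 2 := hj
      have e : j = 0 ∨ j = 1 := by omega
      rcases e with rfl | rfl
      · change lift3 hbr (rho2 (aH 0)) = aH 0
        rw [rho2_a0, lift3_1]
      · change lift3 hbr (rho2 (aH 1)) = aH 1
        rw [rho2_a1, lift3_2]
    exact hle hb
  refine ⟨x, ?_⟩
  rw [← h1, hh, map_one, mul_one]

lemma rho2_surj : Function.Surjective rho2 := by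
  have h : rho2.range = ⊤ := by
    rw [eq_top_iff, ← closure_B3, Subgroup.closure_le]
    rintro y (rfl | rfl)
    · exact ⟨aH 0, rho2_a0⟩
    · exact ⟨aH 1, rho2_a1⟩
  exact MonoidHom.range_eq_top.1 h

/-- the plus or minus one elements of `SL` -/
def pm1 : Subgroup SL where
  carrier := {X | X = 1 ∨ X = -1}
  one_mem' := Or.inl rfl
  mul_mem' := by
    rintro X Y (rfl | rfl) (rfl | rfl)
    · left; rw [one_mul]
    · right; rw [one_mul]
    · right; rw [mul_one]
    · left; rw [neg_mul_neg, one_mul]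
  inv_mem' := by
    rintro X (rfl | rfl)
    · left; rw [inv_one]
    · right
      rw [inv_eq_iff_mul_eq_one]
      rw [neg_mul_neg, one_mul]

lemma pm1_conj {X : SL} (hX : X ∈ pm1) (Y : SL) : Y * X * Y⁻¹ ∈ pm1 := by
  rcases hX with rfl | rfl
  · left; rw [mul_one, mul_inv_cancel]
  · right; rw [mul_neg, mul_one, neg_mul, mul_inv_cancel]

lemma pm1_conj' {X : SL} (hX : X ∈ pm1) (Y : SL) : Y⁻¹ * X * Y ∈ pm1 := by
  have := pm1_conj hX Y⁻¹
  rwa [inv_inv] at this

/-- if the image of `d` is trivial modulo the center, then `F` is mapped to `F⟨ζ⟩` -/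
lemma MF_of_d (r : HB 2 →* HB 2) (h : sl (rho2 (r dH)) ∈ pm1) : Pool.Agent.Helper54.BN.MF 2 r := by
  have hzz : ∀ j, sl (rho2 (r (zz aH dH j))) ∈ pm1 := by
    intro j
    induction j with
    | zero => exact h
    | succ j ih =>
      change sl (rho2 (r ((aH j)⁻¹ * zz aH dH j * aH j))) ∈ pm1
      simp only [map_mul, map_inv]
      exact pm1_conj' ih _
  have hF : ∀ x : F 2, sl (rho2 (r (zH 2 x))) ∈ pm1 := by
    let f : F 2 →* SL := sl.comp (rho2.comp (r.comp (zH 2)))
    let g : F 2 →* pm1 := liftF (k := 2) (fun i => (⟨sl (rho2 (r (zz aH dH i))), hzz i⟩ : pm1))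
    have hfg : f = pm1.subtype.comp g := by
      apply homF_ext
      intro i hi
      change sl (rho2 (r (zH 2 (zF i)))) = ((g (zF i) : pm1) : SL)
      have h1 : zH 2 (zF i) = zz aH dH i := liftF_z _ hi
      have h2 : g (zF i) = ⟨sl (rho2 (r (zz aH dH i))), hzz i⟩ := liftF_z _ hi
      rw [h1, h2]
    intro x
    have h1 : f x = ((g x : pm1) : SL) := DFunLike.congr_fun hfg x
    change f x ∈ pm1
    rw [h1]
    exact (g x).2
  intro x
  obtain ⟨n, hn⟩ := sl_ker (hF x)
  have h1 : rho2 (r (zH 2 x) * (zeH 2 ^ n)⁻¹) = 1 := by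
    rw [map_mul, map_inv, map_zpow, rho2_ze, hn, mul_inv_cancel]
  obtain ⟨x', hx'⟩ := rho2_ker h1
  exact ⟨x', n, by rw [← hx', inv_mul_cancel_right]⟩

/-! ### the two types of homomorphisms to `SL` -/

lemma q4_d : ((q4.comp (BrH 3).subtype).comp (io 0)) dH = s1 ^ 2 := by
  change q4 (iota 2 dH) = s1 ^ 2
  have h1 : iota 2 dH = aH 0 * aH 0 := liftH_d _
  rw [h1, map_mul, q4_a0, pow_two]

lemma q4_i0 : ((q4.comp (BrH 3).subtype).comp (io 0)) (aH 0) = s2 := by
  change q4 (iota 2 (aH 0)) = s2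
  have h1 : iota 2 (aH 0) = aH 1 := liftH_a _ (by omega)
  rw [h1, q4_a1]

lemma q4_i1 : ((q4.comp (BrH 3).subtype).comp (io 0)) (aH 1) = s1 := by
  change q4 (iota 2 (aH 1)) = s1
  have h1 : iota 2 (aH 1) = aH 2 := liftH_a _ (by omega)
  rw [h1, q4_a2]

lemma mA_sq : ¬ (mA ^ 2 ∈ pm1) := by
  rintro (h | h)
  · have h1 := congrArg (fun X : SL => X 0 1) h
    simp [mA, pow_two, Matrix.mul_apply] at h1
  · have h1 := congrArg (fun X : SL => X 0 1) h
    simp [mA, pow_two, Matrix.mul_apply] at h1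

private lemma mul_mat {X X' Y Y' : SL} {M : Matrix (Fin 2) (Fin 2) ℤ} {u u' : ℤ}
    (h : (X : Matrix (Fin 2) (Fin 2) ℤ) * M = u • (M * (Y : Matrix (Fin 2) (Fin 2) ℤ)))
    (h' : (X' : Matrix (Fin 2) (Fin 2) ℤ) * M = u' • (M * (Y' : Matrix (Fin 2) (Fin 2) ℤ))) :
    ((X * X' : SL) : Matrix (Fin 2) (Fin 2) ℤ) * M =
      (u * u') • (M * ((Y * Y' : SL) : Matrix (Fin 2) (Fin 2) ℤ)) := by
  rw [Matrix.SpecialLinearGroup.coe_mul, Matrix.SpecialLinearGroup.coe_mul, Matrix.mul_assoc, h',
    Matrix.mul_smul, ← Matrix.mul_assoc, h, Matrix.smul_mul, smul_smul, Matrix.mul_assoc,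
    mul_comm u' u]

/-- the image of `d`, for an automorphism of `HB 2` which comes from an automorphism of `B_4`
compatible with the fold -/
theorem d_type (r : MulAut (HB 2))
    (hq : ∃ y : B3, ∀ h, q4 (iota 2 (r h)) = y * q4 (iota 2 h) * y⁻¹) :
    sl (rho2 (r dH)) ∈ pm1 := by
  obtain ⟨y, hy⟩ := hq
  obtain ⟨f, hf⟩ : ∃ f : HB 2 →* SL, ∀ x, f x = sl (rho2 (r x)) :=
    ⟨sl.comp (rho2.comp r.toMonoidHom), fun x => rfl⟩
  have hsurj : Function.Surjective f := by
    intro y
    obtain ⟨x, hx⟩ := sl_surj y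
    obtain ⟨z, hz⟩ := rho2_surj x
    obtain ⟨w, hw⟩ := r.surjective z
    exact ⟨w, by rw [hf, hw, hz, hx]⟩
  have h1 : f (aH 1) * f dH = f dH * f (aH 1) := by
    rw [← map_mul, ← map_mul, (relH 2).dcomm 1 (by omega) (by omega)]
  have h2 : f (aH 1) * f (aH 0) * f (aH 1) = f (aH 0) * f (aH 1) * f (aH 0) := by
    rw [← map_mul, ← map_mul, ← map_mul, ← map_mul]
    exact congrArg f ((relH 2).braid 0 (by omega)).symm
  have h3 : f (aH 0) * f dH * f (aH 0) * f dH = f dH * f (aH 0) * f dH * f (aH 0) := by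
    rw [← map_mul, ← map_mul, ← map_mul, ← map_mul, ← map_mul, ← map_mul,
      (relH 2).four (by omega)]
  have hn : f (aH 1) * f (aH 0) ≠ f (aH 0) * f (aH 1) := by
    intro hc
    have h0 : f (aH 1) = f (aH 0) := by
      rw [hc] at h2
      exact mul_left_cancel h2
    -- everything commutes with `f (aH 1)`
    have hle : ∀ x, f x ∈ Subgroup.centralizer ({f (aH 1)} : Set SL) := by
      intro x
      have hx : x ∈ (Subgroup.centralizer ({f (aH 1)} : Set SL)).comap f := by
        apply HB2_ind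
        · rw [Subgroup.mem_comap, Subgroup.mem_centralizer_singleton_iff]
          rw [h0]
        · rw [Subgroup.mem_comap, Subgroup.mem_centralizer_singleton_iff]
        · rw [Subgroup.mem_comap, Subgroup.mem_centralizer_singleton_iff]
          exact h1.symm
      exact hx
    have hz : ∀ Y : SL, Y * f (aH 1) = f (aH 1) * Y := by
      intro Y
      obtain ⟨x, rfl⟩ := hsurj Y
      exact Subgroup.mem_centralizer_singleton_iff.1 (hle x)
    -- everything commutes with `f dH`
    have hle' : ∀ x, f x ∈ Subgroup.centralizer ({f dH} : Set SL) := by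
      intro x
      have hx : x ∈ (Subgroup.centralizer ({f dH} : Set SL)).comap f := by
        apply HB2_ind
        · rw [Subgroup.mem_comap, Subgroup.mem_centralizer_singleton_iff, ← h0]
          exact h1
        · rw [Subgroup.mem_comap, Subgroup.mem_centralizer_singleton_iff]
          exact h1
        · rw [Subgroup.mem_comap, Subgroup.mem_centralizer_singleton_iff]
      exact hx
    have hall : ∀ x y, f x * f y = f y * f x := by
      intro x y
      have hy : y ∈ (Subgroup.centralizer ({f x} : Set SL)).comap f := by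
        apply HB2_ind
        · rw [Subgroup.mem_comap, Subgroup.mem_centralizer_singleton_iff, ← h0]
          exact (hz _).symm
        · rw [Subgroup.mem_comap, Subgroup.mem_centralizer_singleton_iff]
          exact (hz _).symm
        · rw [Subgroup.mem_comap, Subgroup.mem_centralizer_singleton_iff]
          exact (Subgroup.mem_centralizer_singleton_iff.1 (hle' x)).symm
      exact (Subgroup.mem_centralizer_singleton_iff.1 hy).symm
    obtain ⟨x, hx⟩ := hsurj mA
    obtain ⟨z, hz'⟩ := hsurj mB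
    have h4 := hall x z
    rw [hx, hz'] at h4
    have h5 := congrArg (fun X : SL => X 0 0) h4
    simp [mA, mB, Matrix.mul_apply] at h5
  obtain ⟨k, hk, hD⟩ := Pool.Agent.Helper38.BT.class_D h1 h2 h3 hn
  rcases hk with rfl | rfl
  · rw [pow_zero] at hD
    rw [← hf]
    exact hD
  · -- the second type is impossible
    exfalso
    obtain ⟨ht, ht', h6⟩ := tr_AB h2 hn
    have hm1 : (-1 : SL) ∈ Subgroup.closure ({f (aH 1), f (aH 0)} : Set SL) := by
      rw [← h6]
      exact Subgroup.pow_mem _ (Subgroup.mul_mem _ (Subgroup.subset_closure (by simp))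
        (Subgroup.subset_closure (by simp))) _
    have hgen : Subgroup.closure ({f (aH 1), f (aH 0)} : Set SL) = ⊤ := by
      rw [eq_top_iff]
      intro Y _
      obtain ⟨x, rfl⟩ := hsurj Y
      have hx : x ∈ (Subgroup.closure ({f (aH 1), f (aH 0)} : Set SL)).comap f := by
        have ha1 : f (aH 1) ∈ Subgroup.closure ({f (aH 1), f (aH 0)} : Set SL) :=
          Subgroup.subset_closure (by simp)
        apply HB2_ind
        · exact Subgroup.subset_closure (by simp)
        · exact ha1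
        · rw [Subgroup.mem_comap]
          rcases hD with hD | hD
          · rw [hD]; exact Subgroup.pow_mem _ ha1 _
          · rw [hD, ← neg_one_mul]
            exact Subgroup.mul_mem _ hm1 (Subgroup.pow_mem _ ha1 _)
      exact hx
    obtain ⟨M, s, hM, hs, hAM, hCM⟩ := class_AB h2 ht ht' hgen
    have hss : s * s = 1 := by rcases hs with rfl | rfl <;> norm_num
    -- the relation for all elements
    let S : Subgroup (HB 2) :=
      { carrier := {h | ∃ u : ℤ, (u = 1 ∨ u = -1) ∧ ((f h : SL) : Matrix (Fin 2) (Fin 2) ℤ) * M =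
          u • (M * ((sl (q4 (iota 2 h)) : SL) : Matrix (Fin 2) (Fin 2) ℤ))}
        one_mem' := ⟨1, Or.inl rfl, by simp⟩
        mul_mem' := by
          rintro a b ⟨u, hu, h⟩ ⟨u', hu', h'⟩
          refine ⟨u * u', ?_, ?_⟩
          · rcases hu with rfl | rfl <;> rcases hu' with rfl | rfl <;> norm_num
          · rw [map_mul, map_mul (iota 2), map_mul q4, map_mul sl]
            exact mul_mat h h'
        inv_mem' := by
          rintro a ⟨u, hu, h⟩
          refine ⟨u, hu, ?_⟩
          rw [map_inv, map_inv (iota 2), map_inv q4, map_inv sl]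
          exact inv_mat hu rfl h }
    have hS : ∀ h, h ∈ S := by
      intro h
      have q0 : q4 (iota 2 (aH 0)) = s2 := q4_i0
      have q1 : q4 (iota 2 (aH 1)) = s1 := q4_i1
      have qd : q4 (iota 2 dH) = s1 ^ 2 := q4_d
      apply HB2_ind
      · exact ⟨s, hs, by rw [q0, sl_2]; exact hCM⟩
      · exact ⟨s, hs, by rw [q1, sl_1]; exact hAM⟩
      · have h7 := mul_mat hAM hAM
        rw [hss, ← pow_two, ← pow_two] at h7
        rcases hD with hD | hD
        · exact ⟨1, Or.inl rfl, by rw [qd, map_pow, sl_1, hD]; exact h7⟩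
        · refine ⟨-1, Or.inr rfl, ?_⟩
          rw [qd, map_pow, sl_1, hD, Matrix.SpecialLinearGroup.coe_neg, Matrix.neg_mul, h7,
            one_smul, neg_one_smul]
    -- the element `r⁻¹ d`
    obtain ⟨u, hu, h8⟩ := hS (r⁻¹ dH)
    have h9 : f (r⁻¹ dH) = 1 := by
      rw [hf, MulAut.apply_inv_self, rho2_d, map_one]
    rw [h9, Matrix.SpecialLinearGroup.coe_one, Matrix.one_mul] at h8
    have h10 : sl (q4 (iota 2 (r⁻¹ dH))) ∈ pm1 := by
      have hadj : M.adjugate * M = M.det • (1 : Matrix (Fin 2) (Fin 2) ℤ) := Matrix.adjugate_mul M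
      have h11 := congrArg (fun X => M.adjugate * X) h8
      rw [Matrix.mul_smul, ← Matrix.mul_assoc, hadj, Matrix.smul_mul, Matrix.one_mul, smul_smul,
        mul_comm u, ← smul_smul] at h11
      have h12 : (1 : Matrix (Fin 2) (Fin 2) ℤ) =
          u • ((sl (q4 (iota 2 (r⁻¹ dH))) : SL) : Matrix (Fin 2) (Fin 2) ℤ) := by
        rcases hM with hM | hM
        · rw [hM, one_smul, one_smul] at h11
          exact h11
        · rw [hM, neg_one_smul, neg_one_smul, neg_inj] at h11
          exact h11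
      rcases hu with rfl | rfl
      · left
        apply Subtype.ext
        rw [one_smul] at h12
        rw [← h12]
        rfl
      · right
        apply Subtype.ext
        rw [neg_one_smul] at h12
        have h13 := neg_eq_iff_eq_neg.mp h12.symm
        rw [h13]
        rfl
    have h14 := hy (r⁻¹ dH)
    rw [MulAut.apply_inv_self] at h14
    have h15 : sl (q4 (iota 2 dH)) ∈ pm1 := by
      rw [h14, map_mul, map_mul, map_inv]
      exact pm1_conj h10 _
    have qd : q4 (iota 2 dH) = s1 ^ 2 := q4_d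
    rw [qd, map_pow, sl_1] at h15
    exact mA_sq h15

/-! ### the automorphisms of the braid group on four strands -/

/-- automorphisms of the braid group on four strands which preserve the exponent sum, the permutations and, up
to conjugation, the fold, are inner -/
theorem aut_Br0 {φ : MulAut (BrH 3)} (hφL : ∀ x, L 0 (φ x) = L 0 x)
    (hφp : ∀ x, piH 3 (φ x : HB 3) = piH 3 (x : HB 3))
    (hφq : ∃ y : B3, ∀ x : BrH 3, q4 (φ x : HB 3) = y * q4 (x : HB 3) * y⁻¹) :
    ∃ t : BrH 3, ∀ x, φ x = t * x * t⁻¹ := by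
  obtain ⟨φ', hφ'⟩ := restrict (p := 0) hφp
  have hφ'p := p_restrict (p := 0) hφp hφ'
  have hL' : ∀ x, L 0 (io 0 (φ' x)) = L 0 (io 0 x) := fun x => by rw [← hφ', hφL]
  have hLz : L 0 (io 0 (zeH 2)) = Multiplicative.ofAdd 12 := L_zeta (p := 0)
  have hζ : φ' (zeH 2) = zeH 2 := by
    obtain ⟨n, hn⟩ := Subgroup.mem_zpowers_iff.1
      (Pool.Agent.Helper29.B5.eq_zeta_pow (k := 1) (u := φ' (zeH 2)) (fun x => by
        obtain ⟨y, hy⟩ := φ'.surjective (zH 2 x)
        have h1 := congrArg φ' (zeH_comm y)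
        rw [map_mul, map_mul, hy] at h1
        exact h1.symm))
    have hn' : zeH 2 ^ n = φ' (zeH 2) := hn
    have h1 := hL' (zeH 2)
    rw [← hn', map_zpow, map_zpow, hLz, ← ofAdd_zsmul] at h1
    have h2 : n • (12 : ℤ) = 12 := h1
    rw [smul_eq_mul] at h2
    have h3 : n = 1 := by omega
    rw [← hn', h3, zpow_one]
  have ha : ∀ l : ℤ, Tr 2 l (aH 0) = aH 0 * zeH 2 ^ l := fun l => liftH_a _ (by omega)
  have hLa : L 0 (io 0 (aH 0)) = Multiplicative.ofAdd 1 := by
    rw [io_a (by omega), L_a]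
  -- the fold
  obtain ⟨y, hy⟩ := hφq
  have hq : ∀ h, q4 (iota 2 (φ' h)) = y * q4 (iota 2 h) * y⁻¹ := by
    intro h
    have h1 := hy (io 0 h)
    rw [hφ'] at h1
    exact h1
  have hq' : ∀ h, q4 (iota 2 (φ'.symm h)) = y⁻¹ * q4 (iota 2 h) * y⁻¹⁻¹ := by
    intro h
    have h1 := hq (φ'.symm h)
    rw [MulEquiv.apply_symm_apply] at h1
    rw [h1]
    group
  have m1 : Pool.Agent.Helper54.BN.MF 2 φ'.toMonoidHom := MF_of_d _ (d_type φ' ⟨y, hq⟩)
  have m2 : Pool.Agent.Helper54.BN.MF 2 φ'.symm.toMonoidHom :=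
    MF_of_d _ (d_type φ'.symm ⟨y⁻¹, hq'⟩)
  obtain ⟨t, l, ht⟩ := Pool.Agent.Helper54.BN.aut_of_MF le_rfl φ' hφ'p hζ m1 m2
  have hl : l = 0 := by
    have h1 := hL' (aH 0)
    have h2 : φ' (aH 0) = t * (aH 0 * zeH 2 ^ l) * t⁻¹ := by
      rw [← ha]
      exact ht (aH 0)
    rw [h2, L_io_conj, map_mul, map_zpow, map_mul, map_zpow, hLz, hLa, mul_eq_left,
      ← ofAdd_zsmul] at h1
    have h3 : l • (12 : ℤ) = 0 := h1
    rw [smul_eq_mul] at h3
    omega
  subst hl
  have ht' : ∀ x, φ' x = t * x * t⁻¹ := by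
    intro x
    have h1 := ht x
    rw [Tr_zero] at h1
    exact h1
  have hT : ∀ i, i < 2 → piH 2 t * swap i (i + 1) * (piH 2 t)⁻¹ = swap i (i + 1) := by
    intro i hi
    have h2 := hφ'p (aH i)
    have h3 : piH 2 (aH i) = swap i (i + 1) := liftH_a _ hi
    rw [ht', map_mul, map_mul, map_inv, h3] at h2
    exact h2
  have hT0 : piH 2 t 0 = 0 := fix_zero (hT 0 (by omega)) (hT 1 (by omega))
  set φ₁ : MulAut (BrH 3) := MulAut.conj (io 0 t)⁻¹ * φ with hφ₁def
  have hφ₁ : ∀ x, φ₁ x = (io 0 t)⁻¹ * φ x * io 0 t := by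
    intro x
    rw [hφ₁def, MulAut.mul_apply, MulAut.conj_apply, inv_inv]
  have hfin : φ₁ = 1 := by
    apply last (p := 0)
    · intro x
      have h1 := L_conj (io 0 t)⁻¹ (φ x)
      rw [inv_inv] at h1
      rw [hφ₁, h1, hφL]
    · intro x
      rw [hφ₁, hφ', ht', map_mul, map_mul, map_inv]
      group
    · have hP0 : piH 3 ((io 0 t : BrH 3) : HB 3) 0 = 0 := pi_io_zero t
      have hP1 : piH 3 ((io 0 t : BrH 3) : HB 3) 1 = 1 := by
        rw [io_coe]
        have h1 := piH_iota t 0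
        rw [hT0] at h1
        exact h1
      have hs : piH 3 ((aB 0 (by omega) : BrH 3) : HB 3) = swap 0 1 :=
        BTwo.piH_a (k := 3) (j := 0) (by omega)
      have hP1' : (piH 3 ((io 0 t : BrH 3) : HB 3))⁻¹ 1 = 1 := by
        rw [Equiv.Perm.inv_eq_iff_eq]
        exact hP1.symm
      rw [hφ₁]
      simp only [Subgroup.coe_mul, Subgroup.coe_inv, map_mul, map_inv]
      rw [hφp, hs]
      simp only [Equiv.Perm.mul_apply]
      rw [hP0, swap_apply_left, hP1']
      rw [swap_inv, swap_apply_right]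
  refine ⟨io 0 t, fun x => ?_⟩
  have h1 := hφ₁ x
  rw [hfin, MulAut.one_apply] at h1
  calc φ x = io 0 t * ((io 0 t)⁻¹ * φ x * io 0 t) * (io 0 t)⁻¹ := by group
    _ = io 0 t * x * (io 0 t)⁻¹ := by rw [← h1]

/-- the fold of `D 0` as a homomorphism to the braid group -/
def foldB : D 0 →* BrH 3 := (foldD 0).codRestrict (BrH 3) (fun x => foldD_mem (p := 0) x)

lemma foldB_surj : Function.Surjective foldB := by
  intro b
  obtain ⟨x, hx⟩ := foldD_surj (p := 0) b.2
  exact ⟨x, Subtype.ext hx⟩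

lemma q4_foldB (x : D 0) : q4 (foldB x : HB 3) = F3 x := (F3_fold x).symm

lemma len3_q4 (b : BrH 3) : len3 (q4 (b : HB 3)) = L 0 b := by
  obtain ⟨x, rfl⟩ := foldB_surj b
  rw [q4_foldB, len3_F3]
  have h : lenD 0 = (L 0).comp foldB := by
    apply homS_ext
    · intro i
      rw [lenD_lv, MonoidHom.comp_apply]
      fin_cases i
      · change _ = Pool.Agent.Helper16.DN.el 3 (foldD 0 (aD 0))
        rw [foldD_a (by omega), Pool.Agent.Helper16.DN.el_a (by omega)]
      · change _ = Pool.Agent.Helper16.DN.el 3 (foldD 0 eD)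
        rw [foldD_e, Pool.Agent.Helper16.DN.el_a (by omega)]
      · change _ = Pool.Agent.Helper16.DN.el 3 (foldD 0 (aD 2))
        rw [foldD_a (by omega), Pool.Agent.Helper16.DN.el_a (by omega)]
      · change _ = Pool.Agent.Helper16.DN.el 3 (foldD 0 bD)
        rw [foldD_b, Pool.Agent.Helper16.DN.el_a (by omega)]
    · rw [lenD_cc, MonoidHom.comp_apply]
      change _ = Pool.Agent.Helper16.DN.el 3 (foldD 0 (aD 1))
      rw [foldD_a (by omega), Pool.Agent.Helper16.DN.el_a (by omega)]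
  exact DFunLike.congr_fun h x

/-- automorphisms of the braid group on four strands which preserve the exponent sum are compatible with the
fold, up to an inner automorphism -/
theorem fold_conj {φ : MulAut (BrH 3)} (hφL : ∀ x, L 0 (φ x) = L 0 x) :
    ∃ y : B3, ∀ x : BrH 3, q4 (φ x : HB 3) = y * q4 (x : HB 3) * y⁻¹ := by
  let f : D 0 →* B3 := (q4.comp (BrH 3).subtype).comp (φ.toMonoidHom.comp foldB)
  have hf : ∀ x, f x = q4 (φ (foldB x) : HB 3) := fun x => rfl
  have hlen : ∀ x, len3 (f x) = lenD 0 x := by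
    intro x
    rw [hf, len3_q4, hφL, ← len3_q4, q4_foldB, len3_F3]
  obtain ⟨x, e, h⟩ := norm_gen f (fun y => by
      obtain ⟨x, hx⟩ := sl_surj y
      obtain ⟨z, hz⟩ := F3_surj x
      obtain ⟨w, hw⟩ := foldB_surj (φ.symm (foldB z))
      refine ⟨w, ?_⟩
      rw [hf, hw, MulEquiv.apply_symm_apply, q4_foldB, hz, hx])
    (fun y hy => by left; rw [hlen, hy])
  have he : e = false := by
    by_contra hne
    have he : e = true := by simpa using hne
    subst he
    have h1 := congrArg len3 (h (lv 0))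
    rw [if_pos rfl, map_mul, map_mul, map_inv len3 x, mul_comm (len3 x), mul_inv_cancel_right,
      hlen, eps_lv, map_inv, lenD_lv, F3_lv, len3_1] at h1
    have h2 := congrArg Multiplicative.toAdd h1
    rw [toAdd_inv, toAdd_ofAdd] at h2
    omega
  subst he
  refine ⟨x⁻¹, fun b => ?_⟩
  obtain ⟨z, rfl⟩ := foldB_surj b
  have h1 := h z
  rw [if_neg (by simp), MulAut.one_apply, hf] at h1
  rw [q4_foldB, ← h1]
  group

/-- the statement on the braid group on four strands -/
theorem brInner0 : BrInner 0 := by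
  intro β hl hs
  obtain ⟨s, hs⟩ := hs
  obtain ⟨t, ht⟩ := exists_t hs
  obtain ⟨φ, hφ⟩ : ∃ φ : MulAut (BrH 3), ∀ x, φ x = t⁻¹ * β x * t :=
    ⟨MulAut.conj t⁻¹ * β, fun x => by rw [MulAut.mul_apply, MulAut.conj_apply, inv_inv]⟩
  have hL : ∀ x, L 0 (φ x) = L 0 x := by
    intro x
    have h1 := L_conj t⁻¹ (β x)
    rw [inv_inv] at h1
    rw [hφ, h1, L_lenD, L_lenD, hl]
  obtain ⟨u, hu⟩ := aut_Br0 (φ := φ) hL (by
    intro x
    have h1 := ht x
    rw [hφ, Subgroup.coe_mul, Subgroup.coe_mul, map_mul, map_mul]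
    have h2 : piH 3 (β x : HB 3) = piH 3 ((t * x * t⁻¹ : BrH 3) : HB 3) := h1
    rw [h2]
    simp only [Subgroup.coe_mul, Subgroup.coe_inv, map_mul, map_inv]
    group) (fold_conj hL)
  refine ⟨t * u, fun b => ?_⟩
  have h1 := hu b
  rw [hφ] at h1
  calc β b = t * (t⁻¹ * β b * t) * t⁻¹ := by group
    _ = t * (u * b * u⁻¹) * t⁻¹ := by rw [h1]
    _ = t * u * b * (t * u)⁻¹ := by group

end Pool.Agent.Helper7.D4
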