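import Pool.Agent.Helper20.DN.S6
import Pool.Agent.Helper7.AG.Fv
import Pool.Agent.Helper7.AG.Fsum

/-!
# Project D4: the equation in `W 3`
-/

namespace Pool.Agent.Helper7.D4

open Pool.Agent.Helper38.BN hiding RW
open Pool.Agent.Helper20.DN
open Pool.Agent.Helper7.AG (mult_word freeProd_sum)

/-- the free group on `r`, `g`, `h` -/
abbrev Fr : Type := FreeGroup (Unit ⊕ Bool)

def rr : Fr := FreeGroup.of (Sum.inl ())
def gg : Fr := FreeGroup.of (Sum.inr true)
def hh : Fr := FreeGroup.of (Sum.inr false)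

/-- homomorphisms on `Fr` -/
def liftF3 {K : Type*} [Group K] (r g h : K) : Fr →* K :=
  FreeGroup.lift (Sum.elim (fun _ => r) (fun b => if b then g else h))

section
variable {K : Type*} [Group K] (r g h : K)
@[simp] lemma liftF3_r : liftF3 r g h rr = r := by
  unfold liftF3 rr; rw [FreeGroup.lift_apply_of]; rfl
@[simp] lemma liftF3_g : liftF3 r g h gg = g := by
  unfold liftF3 gg; rw [FreeGroup.lift_apply_of]; rfl
@[simp] lemma liftF3_h : liftF3 r g h hh = h := by
  unfold liftF3 hh; rw [FreeGroup.lift_apply_of]; rfl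

lemma homFr_ext {f f' : Fr →* K} (h1 : f rr = f' rr) (h2 : f gg = f' gg) (h3 : f hh = f' hh) :
    f = f' := by
  refine FreeGroup.ext_hom _ _ fun u => ?_
  rcases u with u | u
  · exact h1
  · cases u
    · exact h3
    · exact h2
end

/-- the conjugation with `x_1` on the even subgroup -/
def tauF : Fr →* Fr := liftF3 (gg⁻¹ * rr⁻¹ * hh⁻¹ * gg * hh) (hh⁻¹ * gg⁻¹ * hh) hh⁻¹

lemma tauF_r : tauF rr = gg⁻¹ * rr⁻¹ * hh⁻¹ * gg * hh := liftF3_r _ _ _
lemma tauF_g : tauF gg = hh⁻¹ * gg⁻¹ * hh := liftF3_g _ _ _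
lemma tauF_h : tauF hh = hh⁻¹ := liftF3_h _ _ _

lemma tauF_sq (x : Fr) : tauF (tauF x) = x := by
  have h : tauF.comp tauF = MonoidHom.id Fr := by
    apply homFr_ext
    · rw [MonoidHom.comp_apply, tauF_r]
      simp only [map_mul, map_inv, tauF_r, tauF_g, tauF_h, MonoidHom.id_apply]
      group
    · rw [MonoidHom.comp_apply, tauF_g]
      simp only [map_mul, map_inv, tauF_g, tauF_h, MonoidHom.id_apply]
      group
    · rw [MonoidHom.comp_apply, tauF_h]
      simp only [map_inv, tauF_h, MonoidHom.id_apply]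
      group
  exact DFunLike.congr_fun h x

/-- the automorphism -/
def tauE : MulAut Fr := ⟨⟨tauF, tauF, tauF_sq, tauF_sq⟩, map_mul _⟩

lemma tauE_sq : tauE * tauE = 1 := MulEquiv.ext tauF_sq

lemma tauE_apply (x : Fr) : tauE x = tauF x := rfl

/-- the action of the signs -/
def tauA : ℤˣ →* MulAut Fr := c2hom tauE tauE_sq

lemma tauA_neg : tauA (-1) = tauE := c2hom_neg _ _

/-- the images of `x_i x_1` -/
def cF (i : ℕ) : Fr := if i = 0 then rr * gg else if i = 1 then 1 else if i = 2 then hh else gg * hh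

lemma tauF_c (i : ℕ) : tauF (cF i) = (cF i)⁻¹ := by
  unfold cF
  split_ifs
  · rw [map_mul, tauF_r, tauF_g]; group
  · rw [map_one, inv_one]
  · rw [tauF_h]
  · rw [map_mul, tauF_g, tauF_h]; group

/-- the homomorphism `W 3 → Fr ⋊ ℤˣ` -/
def PhiW : W 3 →* Fr ⋊[tauA] ℤˣ := liftW (fun i => ⟨cF i, -1⟩) (fun i _ => by
  apply SemidirectProduct.ext
  · rw [SemidirectProduct.mul_left]
    change cF i * tauA (-1) (cF i) = 1
    rw [tauA_neg, tauE_apply, tauF_c, mul_inv_cancel]
  · rw [SemidirectProduct.mul_right]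
    change (-1 : ℤˣ) * -1 = 1
    decide)

lemma PhiW_x {i : ℕ} (hi : i ≤ 3) : PhiW (xW i) = ⟨cF i, -1⟩ := liftW_x _ _ hi

/-- the basis of the even subgroup -/
def Th3 : Fr →* W 3 := liftF3 (RW 3) (xW 3 * xW 2) (xW 2 * xW 1)

lemma Phi_mul (a b : Fr) : (⟨a, -1⟩ : Fr ⋊[tauA] ℤˣ) * ⟨b, -1⟩ = ⟨a * tauF b, 1⟩ := by
  apply SemidirectProduct.ext
  · rw [SemidirectProduct.mul_left]
    change a * tauA (-1) b = a * tauF b
    rw [tauA_neg, tauE_apply]
  · rw [SemidirectProduct.mul_right]
    change (-1 : ℤˣ) * -1 = 1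
    decide

lemma Phi_Th (x : Fr) : PhiW (Th3 x) = SemidirectProduct.inl x := by
  have h : PhiW.comp Th3 = SemidirectProduct.inl := by
    apply homFr_ext
    · rw [MonoidHom.comp_apply, Th3, liftF3_r]
      have e : RW 3 = (xW 0 * xW 1) * (xW 2 * xW 3) := by
        change xW 0 * xW 1 * xW 2 * xW 3 = _
        simp only [mul_assoc]
      rw [e, map_mul, map_mul, map_mul, PhiW_x (by omega), PhiW_x (by omega), PhiW_x (by omega),
        PhiW_x (by omega), Phi_mul, Phi_mul, tauF_c, tauF_c]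
      apply SemidirectProduct.ext
      · rw [SemidirectProduct.mul_left]
        change cF 0 * (cF 1)⁻¹ * tauA 1 (cF 2 * (cF 3)⁻¹) = rr
        rw [map_one]
        change rr * gg * 1⁻¹ * (hh * (gg * hh)⁻¹) = rr
        group
      · rfl
    · rw [MonoidHom.comp_apply, Th3, liftF3_g, map_mul, PhiW_x (by omega), PhiW_x (by omega),
        Phi_mul, tauF_c]
      apply SemidirectProduct.ext
      · change gg * hh * hh⁻¹ = gg
        group
      · rfl
    · rw [MonoidHom.comp_apply, Th3, liftF3_h, map_mul, PhiW_x (by omega), PhiW_x (by omega),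
        Phi_mul, tauF_c]
      apply SemidirectProduct.ext
      · change hh * 1⁻¹ = hh
        group
      · rfl
  exact DFunLike.congr_fun h x

lemma Th3_inj : Function.Injective Th3 := by
  intro x y h
  have h1 := Phi_Th x
  rw [h, Phi_Th] at h1
  exact (SemidirectProduct.inl_injective h1).symm

/-! ### the equation -/

private lemma unit_pow (b : FreeGroup Unit) : ∃ n : ℤ, b = FreeGroup.of () ^ n :=
  ⟨FreeGroup.freeGroupUnitEquivInt b, (FreeGroup.freeGroupUnitEquivInt.left_inv b).symm⟩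

/-- the homomorphisms `u ↦ v` -/
private def fB (v : FreeGroup Bool) : FreeGroup Unit →* FreeGroup Bool := FreeGroup.lift (fun _ => v)

private lemma fB_pow (v : FreeGroup Bool) (n : ℤ) : fB v (FreeGroup.of () ^ n) = v ^ n := by
  unfold fB; rw [map_zpow, FreeGroup.lift_apply_of]

/-- the exponent sum of `g` -/
private def exg : FreeGroup Bool →* Multiplicative ℤ :=
  FreeGroup.lift (fun b => Multiplicative.ofAdd (if b then 1 else 0))
private def exh : FreeGroup Bool →* Multiplicative ℤ :=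
  FreeGroup.lift (fun b => Multiplicative.ofAdd (if b then 0 else 1))

private def gB : FreeGroup Bool := FreeGroup.of true
private def hB : FreeGroup Bool := FreeGroup.of false

private lemma exg_g : exg gB = Multiplicative.ofAdd 1 := by
  unfold exg gB; rw [FreeGroup.lift_apply_of]; rfl
private lemma exg_h : exg hB = 1 := by
  unfold exg hB; rw [FreeGroup.lift_apply_of]; rfl
private lemma exh_g : exh gB = 1 := by
  unfold exh gB; rw [FreeGroup.lift_apply_of]; rfl
private lemma exh_h : exh hB = Multiplicative.ofAdd 1 := by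
  unfold exh hB; rw [FreeGroup.lift_apply_of]; rfl

private lemma pow_zero_of {n : ℤ} (h : (Multiplicative.ofAdd (1 : ℤ)) ^ n = 1) : n = 0 := by
  have h2 := congrArg Multiplicative.toAdd h
  simpa using h2

private lemma fB_inj {v : FreeGroup Bool} (f : FreeGroup Bool →* Multiplicative ℤ)
    (hf : f v = Multiplicative.ofAdd 1) : Function.Injective (fB v) := by
  rw [injective_iff_map_eq_one]
  intro x hx
  obtain ⟨n, rfl⟩ := unit_pow x
  rw [fB_pow] at hx
  have h := congrArg f hx
  rw [map_zpow, hf, MonoidHom.map_one] at h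
  rw [pow_zero_of h, zpow_zero]

private lemma sr_sq (i : ZMod 0) :
    (DihedralGroup.sr i : DihedralGroup 0) * DihedralGroup.sr i = 1 := by
  rw [DihedralGroup.sr_mul_sr, sub_self]; rfl

private lemma dih_pow {n : ℤ} (h : (DihedralGroup.r 1 : DihedralGroup 0) ^ n = 1) : n = 0 := by
  have h1 := orderOf_dvd_iff_zpow_eq_one.2 h
  rw [DihedralGroup.orderOf_r_one] at h1
  simpa using h1

private lemma inv_pow' {K : Type*} [Group K] {s : K} (hs : s * s = 1) (n : ℤ) :
    s ^ n = if Even n then 1 else s := by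
  have h2 : s ^ (2 : ℤ) = 1 := by
    rw [zpow_two, hs]
  split_ifs with h
  · obtain ⟨m, rfl⟩ := h
    rw [← two_mul, zpow_mul, h2, one_zpow]
  · obtain ⟨m, rfl⟩ := Int.not_even_iff_odd.1 h
    rw [_root_.zpow_add, zpow_mul, h2, one_zpow, one_mul, zpow_one]

private lemma gh_one {n : ℤ} (hn : n ≠ 0) (h : (gB * hB) ^ n = gB ^ n * hB ^ n) : n = 1 := by
  let f : FreeGroup Bool →* DihedralGroup 0 :=
    FreeGroup.lift (fun b => if b then DihedralGroup.sr 0 else DihedralGroup.sr 1)
  have fg : f gB = DihedralGroup.sr 0 := by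
    change FreeGroup.lift _ (FreeGroup.of true) = _
    rw [FreeGroup.lift_apply_of]; rfl
  have fh : f hB = DihedralGroup.sr 1 := by
    change FreeGroup.lift _ (FreeGroup.of false) = _
    rw [FreeGroup.lift_apply_of]; rfl
  have hab : (DihedralGroup.sr 0 : DihedralGroup 0) * DihedralGroup.sr 1 = DihedralGroup.r 1 := by
    rw [DihedralGroup.sr_mul_sr, sub_zero]
  have h1 := congrArg f h
  rw [map_zpow, map_mul, map_mul, map_zpow, map_zpow, fg, fh, hab, inv_pow' (sr_sq 0),
    inv_pow' (sr_sq 1)] at h1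
  split_ifs at h1
  · rw [mul_one] at h1
    exact absurd (dih_pow h1) hn
  · rw [hab] at h1
    have h3 : (DihedralGroup.r 1 : DihedralGroup 0) ^ (n - 1) = 1 := by
      rw [_root_.zpow_sub, h1, zpow_one, mul_inv_cancel]
    have := dih_pow h3
    omega

/-- the homomorphisms `r ↦ r`, `u ↦ v` -/
private def eU (v : Fr) : FreeGroup (Unit ⊕ Unit) →* Fr :=
  FreeGroup.lift (Sum.elim (fun _ => rr) (fun _ => v))

private lemma eU_inl (v : Fr) (a : FreeGroup Unit) :
    eU v (FreeGroup.map Sum.inl a) = FreeGroup.map (Sum.inl : Unit → Unit ⊕ Bool) a := by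
  have h : (eU v).comp (FreeGroup.map Sum.inl) = FreeGroup.map (Sum.inl : Unit → Unit ⊕ Bool) := by
    refine FreeGroup.ext_hom _ _ fun u => ?_
    rw [MonoidHom.comp_apply, FreeGroup.map.of, FreeGroup.map.of, eU, FreeGroup.lift_apply_of,
      Sum.elim_inl]
    rfl
  exact DFunLike.congr_fun h a

private lemma eU_inr (v : FreeGroup Bool) (x : FreeGroup Unit) :
    eU (FreeGroup.map Sum.inr v) (FreeGroup.map Sum.inr x) =
      FreeGroup.map (Sum.inr : Bool → Unit ⊕ Bool) (fB v x) := by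
  have h : (eU (FreeGroup.map Sum.inr v)).comp (FreeGroup.map Sum.inr) =
      (FreeGroup.map (Sum.inr : Bool → Unit ⊕ Bool)).comp (fB v) := by
    refine FreeGroup.ext_hom _ _ fun u => ?_
    rw [MonoidHom.comp_apply, MonoidHom.comp_apply, FreeGroup.map.of, eU, FreeGroup.lift_apply_of,
      Sum.elim_inr, fB, FreeGroup.lift_apply_of]
  exact DFunLike.congr_fun h x

private lemma map_gB : FreeGroup.map (Sum.inr : Bool → Unit ⊕ Bool) gB = gg := FreeGroup.map.of
private lemma map_hB : FreeGroup.map (Sum.inr : Bool → Unit ⊕ Bool) hB = hh := FreeGroup.map.of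

/-- the equation in the free group -/
private lemma fsolve {x : FreeGroup (Unit ⊕ Unit)}
    (h : eU (gg * hh) x = eU gg x * eU hh x) :
    x = 1 ∨ ∃ i : ℤ, x = FreeGroup.of (Sum.inl ()) ^ i * FreeGroup.of (Sum.inr ()) *
      (FreeGroup.of (Sum.inl ()) ^ i)⁻¹ := by
  have e0 : gg * hh = FreeGroup.map (Sum.inr : Bool → Unit ⊕ Bool) (gB * hB) := by
    rw [map_mul, map_gB, map_hB]
  rcases mult_word (freeProd_sum Unit Unit) (freeProd_sum Unit Bool)
    (e₀ := eU (FreeGroup.map (Sum.inr : Bool → Unit ⊕ Bool) (gB * hB)))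
    (e₁ := eU (FreeGroup.map (Sum.inr : Bool → Unit ⊕ Bool) gB))
    (e₂ := eU (FreeGroup.map (Sum.inr : Bool → Unit ⊕ Bool) hB))
    (eU_inl _) (eU_inl _) (eU_inl _)
    (eU_inr _) (eU_inr _) (eU_inr _)
    (fB_inj exg (by rw [map_mul, exg_g, exg_h, mul_one]))
    (fB_inj exg exg_g) (fB_inj exh exh_h)
    (by
      intro b b' hb _ h1
      obtain ⟨m, rfl⟩ := unit_pow b
      obtain ⟨n, rfl⟩ := unit_pow b'
      rw [fB_pow, fB_pow] at h1
      have h2 := congrArg exg h1
      rw [map_mul, map_zpow, map_zpow, exg_g, exg_h, one_zpow, mul_one, MonoidHom.map_one] at h2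
      apply hb
      rw [pow_zero_of h2, zpow_zero]) (x := x) (by
      rw [← e0, map_gB, map_hB]
      exact h) with hx | ⟨a, b, hb, hx, hf⟩
  · exact Or.inl hx
  · right
    obtain ⟨i, rfl⟩ := unit_pow a
    obtain ⟨n, rfl⟩ := unit_pow b
    rw [fB_pow, fB_pow, fB_pow] at hf
    have hn : n = 1 := gh_one (by rintro rfl; exact hb (zpow_zero _)) hf
    refine ⟨i, ?_⟩
    rw [hx, hn, zpow_one, map_zpow, FreeGroup.map.of, FreeGroup.map.of]

/-- the equation in `W 3` -/
theorem solv0 : Solv 0 := by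
  intro w hw h
  have hA1 : ∀ j, j < 3 → wA j (RW 3) = RW 3 := fun j hj => wA_R hj
  have w1 : wA 1 (xW 3 * xW 2 : W 3) = xW 3 * xW 1 := by
    rw [map_mul, wA_x (by omega) (by omega), wA_x (by omega) (by omega)]
    rfl
  have w2 : wA 2 (xW 3 * xW 1 : W 3) = xW 2 * xW 1 := by
    rw [map_mul, wA_x (by omega) (by omega), wA_x (by omega) (by omega)]
    rfl
  have hg : Th3 (gg * hh) = xW 3 * xW 1 := by
    rw [map_mul, Th3, liftF3_g, liftF3_h]
    simp only [mul_assoc, xW_sq']
  obtain ⟨x, rfl⟩ : ∃ x, Th3 (eU gg x) = w := by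
    have h1 : (Th3.comp (eU gg)).range = Subgroup.closure {RW 3, (xW 3 * xW 2 : W 3)} := by
      have e : Th3.comp (eU gg) =
          FreeGroup.lift (Sum.elim (fun _ : Unit => RW 3) (fun _ : Unit => xW 3 * xW 2)) := by
        refine FreeGroup.ext_hom _ _ fun u => ?_
        rw [MonoidHom.comp_apply, FreeGroup.lift_apply_of, eU, FreeGroup.lift_apply_of]
        rcases u with u | u
        · exact liftF3_r _ _ _
        · exact liftF3_g _ _ _
      rw [e, FreeGroup.range_lift_eq_closure]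
      congr 1
      ext y
      constructor
      · rintro ⟨u | u, rfl⟩
        · exact Or.inl rfl
        · exact Or.inr rfl
      · rintro (rfl | rfl)
        · exact ⟨Sum.inl (), rfl⟩
        · exact ⟨Sum.inr (), rfl⟩
    have hw' : w ∈ Subgroup.closure {RW 3, (xW 3 * xW 2 : W 3)} := hw
    rw [← h1] at hw'
    exact hw'
  have e1 : ∀ v : Fr, ∀ {V : W 3} {j : ℕ}, j < 3 → wA j (Th3 v) = V → ∀ v' : Fr, Th3 v' = V →
      wA j (Th3 (eU v x)) = Th3 (eU v' x) := by
    intro v V j hj hV v' hv'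
    have h1 : (wA j : MulAut (W 3)).toMonoidHom.comp (Th3.comp (eU v)) = Th3.comp (eU v') := by
      refine FreeGroup.ext_hom _ _ fun u => ?_
      change wA j (Th3 (eU v (FreeGroup.of u))) = Th3 (eU v' (FreeGroup.of u))
      unfold eU
      rw [FreeGroup.lift_apply_of, FreeGroup.lift_apply_of]
      rcases u with u | u
      · rw [Sum.elim_inl, Sum.elim_inl]
        have e2 : Th3 rr = RW 3 := liftF3_r _ _ _
        rw [e2, hA1 j hj]
      · rw [Sum.elim_inr, Sum.elim_inr, hV, hv']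
    exact DFunLike.congr_fun h1 x
  have k1 : wA 1 (Th3 (eU gg x)) = Th3 (eU (gg * hh) x) := by
    refine e1 gg (by omega) ?_ _ hg
    have e2 : Th3 gg = xW 3 * xW 2 := liftF3_g _ _ _
    rw [e2, w1]
  have k2 : wA 2 (Th3 (eU (gg * hh) x)) = Th3 (eU hh x) := by
    refine e1 (gg * hh) (V := xW 2 * xW 1) (by omega) ?_ _ (liftF3_h _ _ _)
    rw [hg, w2]
  have h' : Th3 (eU gg x) * wA 2 (wA 1 (Th3 (eU gg x))) = wA 1 (Th3 (eU gg x)) := h
  rw [k1, k2, ← map_mul] at h'
  rcases fsolve (Th3_inj h').symm with hx | ⟨i, hx⟩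
  · left
    rw [hx, map_one, map_one]
  · right
    refine ⟨i, ?_⟩
    have e2 : Th3 (eU gg (FreeGroup.of (Sum.inl ()))) = RW 3 := by
      unfold eU
      rw [FreeGroup.lift_apply_of]
      exact liftF3_r _ _ _
    have e3 : Th3 (eU gg (FreeGroup.of (Sum.inr ()))) = xW 3 * xW 2 := by
      unfold eU
      rw [FreeGroup.lift_apply_of]
      exact liftF3_g _ _ _
    rw [hx]
    simp only [map_mul, map_inv, map_zpow, e2, e3]

end Pool.Agent.Helper7.D4
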