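import Pool.Agent.Helper7.D4.Pres
import Pool.Agent.Helper7.D4.Inner
import Pool.Agent.Helper7.D4.Solv
import Pool.Agent.Helper20.DN.Main
import Pool.Agent.Helper20.DN.Desc

/-!
# Project D4: the theorem for `D̃_4`
-/

namespace Pool.Agent.Helper7.D4

open Pool.Agent.Helper38.BN Pool.Agent.Helper20.DN Equiv
open Pool.Agent.Helper7.AG (Artin)

/-! ### the graph automorphisms -/

/-- the nodes of the leaves -/
def nd : Fin 4 → Fin 5 := ![3, 4, 1, 0]
/-- the inverse of `nd` -/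
def dn : Fin 5 → Fin 4 := ![3, 2, 0, 0, 1]

lemma dn_nd (i : Fin 4) : dn (nd i) = i := by
  revert i
  decide
lemma nd_dn {x : Fin 5} (h : x ≠ 2) : nd (dn x) = x := by
  revert x
  decide
lemma nd_ne (i : Fin 4) : nd i ≠ 2 := by
  revert i
  decide

lemma Dt4_apply (s t : Fin 5) : Dt 4 s t = if s = t then 1 else if s = 2 ∨ t = 2 then 3 else 2 := by
  change dtE 4 s t = _
  revert s t
  decide

lemma mem_graph {g : Perm (Fin 5)} : g ∈ GraphAut (Dt 4) ↔ g 2 = 2 := by
  constructor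
  · intro h
    by_contra hne
    have h0 : Dt 4 (g 2) (g 0) = Dt 4 2 0 := h 2 0
    have h1 : Dt 4 (g 2) (g 1) = Dt 4 2 1 := h 2 1
    have n0 : g 2 ≠ g 0 := fun e => absurd (g.injective e) (by decide)
    have n1 : g 2 ≠ g 1 := fun e => absurd (g.injective e) (by decide)
    have n2 : g 0 ≠ g 1 := fun e => absurd (g.injective e) (by decide)
    rw [Dt4_apply, Dt4_apply, if_neg n0, if_neg (by decide : (2 : Fin 5) ≠ 0),
      if_pos (Or.inl rfl : (2 : Fin 5) = 2 ∨ (0 : Fin 5) = 2)] at h0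
    rw [Dt4_apply, Dt4_apply, if_neg n1, if_neg (by decide : (2 : Fin 5) ≠ 1),
      if_pos (Or.inl rfl : (2 : Fin 5) = 2 ∨ (1 : Fin 5) = 2)] at h1
    have e0 : g 0 = 2 := by
      by_contra h2
      rw [if_neg (not_or.2 ⟨hne, h2⟩)] at h0
      exact absurd h0 (by decide)
    have e1 : g 1 = 2 := by
      by_contra h2
      rw [if_neg (not_or.2 ⟨hne, h2⟩)] at h1
      exact absurd h1 (by decide)
    exact n2 (e0.trans e1.symm)
  · intro h s t
    have h2 : ∀ x, g x = 2 ↔ x = 2 := fun x => by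
      rw [← h]
      constructor
      · intro e
        have := g.injective e
        rw [h]
        exact this
      · intro e
        rw [e, h, h]
    change Dt 4 (g s) (g t) = Dt 4 s t
    rw [Dt4_apply, Dt4_apply]
    have h3 : (g s = 2 ∨ g t = 2) ↔ (s = 2 ∨ t = 2) := or_congr (h2 s) (h2 t)
    by_cases e : s = t
    · rw [if_pos e, if_pos (congrArg g e)]
    · rw [if_neg e, if_neg (fun h => e (g.injective h))]
      exact if_congr h3 rfl rfl

lemma inv_app {α : Type*} (g : Perm α) (x : α) : g⁻¹ (g x) = x := Equiv.symm_apply_apply g x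
lemma app_inv {α : Type*} (g : Perm α) (x : α) : g (g⁻¹ x) = x := Equiv.apply_symm_apply g x

/-- the permutation of the leaves of a permutation of the nodes -/
def toLv (g : Perm (Fin 5)) (h : g 2 = 2) : Perm (Fin 4) where
  toFun i := dn (g (nd i))
  invFun i := dn (g⁻¹ (nd i))
  left_inv i := by
    have h1 : g (nd i) ≠ 2 := fun e => nd_ne i (g.injective (e.trans h.symm))
    beta_reduce
    rw [nd_dn h1, inv_app, dn_nd]
  right_inv i := by
    have h1 : g⁻¹ (nd i) ≠ 2 := fun e => nd_ne i (by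
      rw [Perm.inv_eq_iff_eq] at e
      rw [e, h])
    beta_reduce
    rw [nd_dn h1, app_inv, dn_nd]

/-- the permutation of the nodes of a permutation of the leaves -/
def toNd (σ : Perm (Fin 4)) : Perm (Fin 5) where
  toFun x := if x = 2 then 2 else nd (σ (dn x))
  invFun x := if x = 2 then 2 else nd (σ⁻¹ (dn x))
  left_inv x := by
    beta_reduce
    by_cases h : x = 2
    · rw [if_pos h, if_pos rfl, h]
    · rw [if_neg h, if_neg (nd_ne _), dn_nd, inv_app, nd_dn h]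
  right_inv x := by
    beta_reduce
    by_cases h : x = 2
    · rw [if_pos h, if_pos rfl, h]
    · rw [if_neg h, if_neg (nd_ne _), dn_nd, app_inv, nd_dn h]

lemma toNd_two (σ : Perm (Fin 4)) : toNd σ 2 = 2 := rfl
lemma toNd_nd (σ : Perm (Fin 4)) (i : Fin 4) : toNd σ (nd i) = nd (σ i) := by
  change (if nd i = 2 then 2 else nd (σ (dn (nd i)))) = _
  rw [if_neg (nd_ne i), dn_nd]

lemma toNd_mul (σ τ : Perm (Fin 4)) : toNd (σ * τ) = toNd σ * toNd τ := by
  ext x
  by_cases h : x = 2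
  · rw [h]
    rfl
  · rw [← nd_dn h, Perm.mul_apply, toNd_nd, toNd_nd, toNd_nd]
    rfl

/-- the group of graph automorphisms is the symmetric group of the leaves -/
def gr4 : Perm (Fin 4) ≃* GraphAut (Dt 4) where
  toFun σ := ⟨toNd σ, mem_graph.2 (toNd_two σ)⟩
  invFun g := toLv g.1 (mem_graph.1 g.2)
  left_inv σ := by
    ext i
    change ((dn (toNd σ (nd i)) : Fin 4) : ℕ) = _
    rw [toNd_nd, dn_nd]
  right_inv g := by
    apply Subtype.ext
    have h := mem_graph.1 g.2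
    ext x
    by_cases hx : x = 2
    · rw [hx]
      change ((2 : Fin 5) : ℕ) = g.1 2
      rw [h]
    · change ((toNd _ x : Fin 5) : ℕ) = _
      obtain ⟨i, rfl⟩ : ∃ i, x = nd i := ⟨dn x, (nd_dn hx).symm⟩
      rw [toNd_nd]
      change ((nd (dn (g.1 (nd i))) : Fin 5) : ℕ) = _
      rw [nd_dn (fun e => nd_ne i (g.1.injective (e.trans h.symm)))]
  map_mul' σ τ := Subtype.ext (toNd_mul σ τ)

lemma of_nd (i : Fin 4) : (PresentedGroup.of (nd i) : D 0) = lv i := by
  fin_cases i <;> rfl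

lemma of_two : (PresentedGroup.of (2 : Fin 5) : D 0) = cc := rfl

/-- the permutations of the leaves are the graph automorphisms -/
lemma gam_gr4 (σ : Perm (Fin 4)) : gam (Dt (0 + 4)) (gr4 σ) = pm σ := by
  have h : (gam (Dt (0 + 4)) (gr4 σ)).toMonoidHom = (pm σ).toMonoidHom := by
    apply homS_ext
    · intro i
      change gam (Dt (0 + 4)) (gr4 σ) (lv i) = pm σ (lv i)
      rw [pm_lv, ← of_nd, gam_of, ← of_nd]
      change (PresentedGroup.of (toNd σ (nd i)) : D 0) = _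
      rw [toNd_nd]
    · change gam (Dt (0 + 4)) (gr4 σ) cc = pm σ cc
      rw [pm_cc, ← of_two, gam_of]
      rfl
  ext x
  exact DFunLike.congr_fun h x

/-! ### uniqueness -/

lemma pm_inner {σ : Perm (Fin 4)} {x : D 0} (h : pm σ = MulAut.conj x) : σ = 1 := by
  -- the numbers
  obtain ⟨p, r, hpr⟩ : ∃ (p : ℤ) (r : Fin 4 → ℤ), ∀ i j, ev i (σ j) = ev i j * p + r i := by
    refine ⟨(act (F3 x) (1, 0)).1, fun i => -(co (ev i) x).2, fun i j => ?_⟩
    have h1 : pm σ (lv j) = x * lv j * x⁻¹ := by rw [h, MulAut.conj_apply]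
    have h2 := (co_is (ev i)).conj x (lv j)
    rw [← h1, pm_lv, co_lv, co_lv, F3_lv, act_1] at h2
    have h3 : ((ev i j, 0) : ℤ × ℤ) = ev i j • (1, 0) := by ext <;> simp
    rw [h3, map_zsmul] at h2
    have h4 := congrArg Prod.fst h2
    rw [SA1_apply] at h4
    simp only [Prod.fst_add, Prod.fst_sub, Prod.smul_fst, smul_eq_mul] at h4
    rw [h4]
    ring
  have h0 : ∀ i : Fin 4, r i = 0 := by
    intro i
    have h1 : ∃ j, j ≠ i ∧ σ j ≠ i := by
      have h2 : ∀ i k : Fin 4, ∃ j, j ≠ i ∧ j ≠ k := by decide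
      obtain ⟨j, hj1, hj2⟩ := h2 i (σ⁻¹ i)
      refine ⟨j, hj1, fun e => hj2 ?_⟩
      rw [← e, inv_app]
    obtain ⟨j, hj1, hj2⟩ := h1
    have h2 := hpr i j
    unfold ev at h2
    rw [if_neg hj2,
      if_neg hj1] at h2
    rw [zero_mul, zero_add] at h2
    exact h2.symm
  ext i
  rw [Perm.one_apply]
  have h1 := hpr (σ i) i
  rw [h0, add_zero] at h1
  have h2 : ev (σ i) (σ i) = 1 := by
    unfold ev
    rw [if_pos rfl]
  rw [h2] at h1
  by_contra hne
  have h3 : ev (σ i) i = 0 := by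
    unfold ev
    rw [if_neg]
    first
    | exact fun e => hne (congrArg Fin.val e)
    | exact fun e => hne (congrArg Fin.val e.symm)
  rw [h3, zero_mul] at h1
  omega

theorem gam_inner4 (g : GraphAut (Dt (0 + 4))) (x : D 0)
    (h : gam (Dt (0 + 4)) g = MulAut.conj x) : g = 1 := by
  obtain ⟨σ, rfl⟩ := gr4.surjective g
  rw [gam_gr4] at h
  rw [pm_inner h, map_one]

theorem gam_eps_inner4 (g : GraphAut (Dt (0 + 4))) (x : D 0) :
    gam (Dt (0 + 4)) g * Pool.Agent.Helper20.DN.eps 0 ≠ MulAut.conj x := by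
  obtain ⟨σ, rfl⟩ := gr4.surjective g
  rw [gam_gr4]
  intro h
  have h1 := congrArg (fun f : MulAut (D 0) => lenD 0 (f (lv 0))) h
  simp only [MulAut.mul_apply, MulAut.conj_apply] at h1
  rw [eps_lv, map_inv, map_inv, pm_lv, lenD_lv, map_mul, map_mul, map_inv, mul_inv_cancel_comm,
    lenD_lv] at h1
  have h2 := congrArg Multiplicative.toAdd h1
  rw [toAdd_inv, toAdd_ofAdd] at h2
  omega

/-! ### the form -/

theorem form4 (φ : MulAut (D 0)) : ∃ (x : D 0) (g : GraphAut (Dt (0 + 4))),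
    φ = MulAut.conj x * gam (Dt (0 + 4)) g ∨
      φ = MulAut.conj x * gam (Dt (0 + 4)) g * Pool.Agent.Helper20.DN.eps 0 := by
  have ee : (Pool.Agent.Helper20.DN.eps 0 : MulAut (D 0)) * Pool.Agent.Helper20.DN.eps 0 = 1 :=
    eps_eps
  obtain ⟨x, e, τ, h⟩ := exists_Nm φ
  obtain ⟨γ, hγ⟩ := aut_pres brInner0 solv0 h.PLR h.PLL h.PiC h.PiC_eps
  obtain ⟨y, u, v, hc⟩ := cj_form γ
  rw [hc] at hγ
  -- the general step
  have key : ∀ E E' : MulAut (D 0), E * E = 1 → (∀ g : GraphAut (Dt (0 + 4)),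
      E * gam (Dt (0 + 4)) g = gam (Dt (0 + 4)) g * E) →
      MulAut.conj x * φ * E * pm τ = MulAut.conj y * gam (Dt (0 + 4)) (gT 0 u v) * E' →
      (∀ g : GraphAut (Dt (0 + 4)), E' * gam (Dt (0 + 4)) g = gam (Dt (0 + 4)) g * E') →
      φ = MulAut.conj (x⁻¹ * y) * gam (Dt (0 + 4)) (gT 0 u v * (gr4 τ)⁻¹) * (E' * E) := by
    intro E E' hE hE1 h1 hE'
    rw [← gam_gr4] at h1
    have h2 : φ = (MulAut.conj x)⁻¹ * (MulAut.conj x * φ * E * gam (Dt (0 + 4)) (gr4 τ)) *
        (gam (Dt (0 + 4)) (gr4 τ))⁻¹ * E⁻¹ := by group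
    have h3 : E⁻¹ = E := inv_eq_of_mul_eq_one_left hE
    rw [h1, h3] at h2
    rw [h2, map_mul MulAut.conj, map_inv MulAut.conj, map_mul (gam (Dt (0 + 4))), ← map_inv (gam (Dt (0 + 4))),
      ← mul_assoc _ E' E]
    have h4 := hE' (gr4 τ)⁻¹
    simp only [mul_assoc]
    rw [← mul_assoc E' _ E, h4]
    simp only [mul_assoc]
  have h1' : ∀ g : GraphAut (Dt (0 + 4)), (1 : MulAut (D 0)) * gam (Dt (0 + 4)) g =
      gam (Dt (0 + 4)) g * 1 := fun g => by rw [one_mul, mul_one]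
  cases e
  · rw [if_neg (by simp)] at hγ
    rcases hγ with hγ | hγ
    · refine ⟨x⁻¹ * y, gT 0 u v * (gr4 τ)⁻¹, Or.inl ?_⟩
      rw [key 1 1 (one_mul 1) h1' (by rw [hγ, mul_one]) h1', mul_one, mul_one]
    · refine ⟨x⁻¹ * y, gT 0 u v * (gr4 τ)⁻¹, Or.inr ?_⟩
      rw [key 1 (Pool.Agent.Helper20.DN.eps 0) (one_mul 1) h1' hγ eps_gam, mul_one]
  · rw [if_pos rfl] at hγ
    rcases hγ with hγ | hγ
    · refine ⟨x⁻¹ * y, gT 0 u v * (gr4 τ)⁻¹, Or.inr ?_⟩
      rw [key (Pool.Agent.Helper20.DN.eps 0) 1 ee eps_gam (by rw [hγ, mul_one]) h1', one_mul]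
    · refine ⟨x⁻¹ * y, gT 0 u v * (gr4 τ)⁻¹, Or.inl ?_⟩
      rw [key (Pool.Agent.Helper20.DN.eps 0) (Pool.Agent.Helper20.DN.eps 0) ee eps_gam hγ eps_gam,
        ee, mul_one]

/-- the statement for `D̃_4` -/
theorem stmt4 : Stmt (Dt 4) := by
  have h1 := out_general (G := D 0) (ε := Pool.Agent.Helper20.DN.eps 0) (γ := gam (Dt (0 + 4))) center_D eps_eps
    eps_gam gam_inner4 gam_eps_inner4 form4
  exact ⟨Pool.Agent.Helper20.DN.eps 0, gam (Dt (0 + 4)), invertsGens_eps, gam_of _, eps_eps, eps_gam, h1⟩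

/-- the statement for `D̃_4` -/
theorem described4 : Described (Dt 4) := described_of stmt4

/-- the group is isomorphic to the symmetric group of four letters -/
def IsS4 (E : Type*) [Group E] : Prop := Nonempty (E ≃* Perm (Fin 4))

theorem graphAut_S4 : IsS4 (GraphAut (Dt 4)) := ⟨gr4.symm⟩

end Pool.Agent.Helper7.D4
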