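import Pool.Agent.Helper7.D4.Coc

/-!
# Project D4: a nilpotent quotient and the two value lemma
-/

namespace Pool.Agent.Helper7.D4

open Pool.Agent.Helper38.BN Pool.Agent.Helper20.DN

/-- a quotient of the free group on two generators, of class three -/
@[ext] structure N5 where
  x : ℤ
  y : ℤ
  z : ℤ
  p : ℤ
  q : ℤ

namespace N5

instance : Mul N5 := ⟨fun a b => ⟨a.x + b.x, a.y + b.y, a.z + b.z + (a.x * b.y - b.x * a.y),
  a.p + b.p + 3 * (a.x * b.z - a.z * b.x) + (a.x * b.y - b.x * a.y) * (a.x - b.x),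
  a.q + b.q + 3 * (a.y * b.z - a.z * b.y) + (a.x * b.y - b.x * a.y) * (a.y - b.y)⟩⟩
instance : One N5 := ⟨⟨0, 0, 0, 0, 0⟩⟩
instance : Inv N5 := ⟨fun a => ⟨-a.x, -a.y, -a.z, -a.p, -a.q⟩⟩

lemma mul_mk (x y z p q x' y' z' p' q' : ℤ) : (⟨x, y, z, p, q⟩ : N5) * ⟨x', y', z', p', q'⟩ =
    ⟨x + x', y + y', z + z' + (x * y' - x' * y), p + p' + 3 * (x * z' - z * x') +
      (x * y' - x' * y) * (x - x'), q + q' + 3 * (y * z' - z * y') +
      (x * y' - x' * y) * (y - y')⟩ := rfl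
lemma one_mk : (1 : N5) = ⟨0, 0, 0, 0, 0⟩ := rfl
lemma inv_mk (x y z p q : ℤ) : (⟨x, y, z, p, q⟩ : N5)⁻¹ = ⟨-x, -y, -z, -p, -q⟩ := rfl

instance : Group N5 := Group.ofLeftAxioms
  (by
    rintro ⟨a, b, c, d, e⟩ ⟨a', b', c', d', e'⟩ ⟨a'', b'', c'', d'', e''⟩
    rw [mul_mk, mul_mk, mul_mk, mul_mk, N5.mk.injEq]
    refine ⟨?_, ?_, ?_, ?_, ?_⟩ <;> ring)
  (by
    rintro ⟨a, b, c, d, e⟩
    rw [one_mk, mul_mk, N5.mk.injEq]
    refine ⟨?_, ?_, ?_, ?_, ?_⟩ <;> ring)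
  (by
    rintro ⟨a, b, c, d, e⟩
    rw [inv_mk, mul_mk, one_mk, N5.mk.injEq]
    refine ⟨?_, ?_, ?_, ?_, ?_⟩ <;> ring)

end N5

/-- the action of `s1` -/
def TA1 : MulAut N5 where
  toFun a := ⟨a.x + a.y, a.y, a.z - a.y, a.p + a.y - 3 * a.z + a.q, a.q - a.y⟩
  invFun a := ⟨a.x - a.y, a.y, a.z + a.y, a.p + a.y + 3 * a.z - a.q, a.q + a.y⟩
  left_inv a := by
    obtain ⟨x, y, z, p, q⟩ := a
    rw [N5.mk.injEq]
    refine ⟨?_, ?_, ?_, ?_, ?_⟩ <;> dsimp only <;> ring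
  right_inv a := by
    obtain ⟨x, y, z, p, q⟩ := a
    rw [N5.mk.injEq]
    refine ⟨?_, ?_, ?_, ?_, ?_⟩ <;> dsimp only <;> ring
  map_mul' a b := by
    obtain ⟨x, y, z, p, q⟩ := a
    obtain ⟨x', y', z', p', q'⟩ := b
    rw [N5.mul_mk, N5.mul_mk, N5.mk.injEq]
    refine ⟨?_, ?_, ?_, ?_, ?_⟩ <;> dsimp only <;> ring

/-- the action of `s2` -/
def TA2 : MulAut N5 where
  toFun a := ⟨a.x, a.y - a.x, a.z + a.x, a.p - a.x, a.q - a.x - 3 * a.z - a.p⟩
  invFun a := ⟨a.x, a.y + a.x, a.z - a.x, a.p + a.x, a.q - a.x + 3 * a.z + a.p⟩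
  left_inv a := by
    obtain ⟨x, y, z, p, q⟩ := a
    rw [N5.mk.injEq]
    refine ⟨?_, ?_, ?_, ?_, ?_⟩ <;> dsimp only <;> ring
  right_inv a := by
    obtain ⟨x, y, z, p, q⟩ := a
    rw [N5.mk.injEq]
    refine ⟨?_, ?_, ?_, ?_, ?_⟩ <;> dsimp only <;> ring
  map_mul' a b := by
    obtain ⟨x, y, z, p, q⟩ := a
    obtain ⟨x', y', z', p', q'⟩ := b
    rw [N5.mul_mk, N5.mul_mk, N5.mk.injEq]
    refine ⟨?_, ?_, ?_, ?_, ?_⟩ <;> dsimp only <;> ring

lemma TA1_mk (x y z p q : ℤ) :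
    TA1 ⟨x, y, z, p, q⟩ = ⟨x + y, y, z - y, p + y - 3 * z + q, q - y⟩ := rfl
lemma TA2_mk (x y z p q : ℤ) :
    TA2 ⟨x, y, z, p, q⟩ = ⟨x, y - x, z + x, p - x, q - x - 3 * z - p⟩ := rfl

lemma TA_braid : TA1 * TA2 * TA1 = TA2 * TA1 * TA2 := by
  refine MulEquiv.ext fun a => ?_
  obtain ⟨x, y, z, p, q⟩ := a
  change TA1 (TA2 (TA1 _)) = TA2 (TA1 (TA2 _))
  rw [TA1_mk, TA2_mk, TA1_mk, TA2_mk, TA1_mk, TA2_mk, N5.mk.injEq]
  refine ⟨?_, ?_, ?_, ?_, ?_⟩ <;> ring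

/-- the action of `B3` on `N5` -/
def act5 : B3 →* MulAut N5 := lift3 TA_braid

@[simp] lemma act5_1 : act5 s1 = TA1 := lift3_1 _
@[simp] lemma act5_2 : act5 s2 = TA2 := lift3_2 _

/-- the two value lemma -/
theorem two_val {u t v : N5} (hc : u * TA1 t = t * TA1 u)
    (hu : u * TA1 v * TA1 (TA2 u) = v * TA2 u * TA2 (TA1 v))
    (ht : t * TA1 v * TA1 (TA2 t) = v * TA2 t * TA2 (TA1 v)) :
    u.x - t.x = 0 ∨ (u.x - t.x) ^ 2 = 1 - 6 * (v.z + v.y - v.y ^ 2) := by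
  obtain ⟨x, y, z, p, q⟩ := u
  obtain ⟨x', y', z', p', q'⟩ := t
  obtain ⟨a, b, c, d, e⟩ := v
  rw [TA1_mk, TA1_mk, N5.mul_mk, N5.mul_mk, N5.mk.injEq] at hc
  rw [TA1_mk, TA2_mk, TA1_mk, TA2_mk, N5.mul_mk, N5.mul_mk, N5.mul_mk, N5.mul_mk,
    N5.mk.injEq] at hu ht
  obtain ⟨-, -, -, hc, -⟩ := hc
  obtain ⟨u1, u2, u3, -, u5⟩ := hu
  obtain ⟨t1, t2, t3, -, t5⟩ := ht
  have hy : y = 0 := by linarith
  have ha : a = 0 := by linarith
  have hy' : y' = 0 := by linarith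
  subst hy ha hy'
  have hz : z = x ^ 2 - x + (c + b - b ^ 2) := by linear_combination u3
  have hz' : z' = x' ^ 2 - x' + (c + b - b ^ 2) := by linear_combination t3
  subst hz hz'
  have key : 2 * ((x - x') * ((x - x') ^ 2 - (1 - 6 * (c + b - b ^ 2)))) = 0 := by
    linear_combination hc + u5 - t5
  have key2 : (x - x') * ((x - x') ^ 2 - (1 - 6 * (c + b - b ^ 2))) = 0 := by linarith
  rcases mul_eq_zero.1 key2 with h | h
  · exact Or.inl h
  · right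
    change (x - x') ^ 2 = 1 - 6 * (c + b - b ^ 2)
    linarith

/-- the values of a cocycle for a vector with entries `0`, `1`, composed with an automorphism over
the fold -/
theorem co_two {e : Fin 4 → ℤ} (he : ∀ i, e i = 0 ∨ e i = 1) {φ : MulAut (D 0)}
    (hφ : ∀ y, F3 (φ y) = F3 y) : ∃ C : ℤ, ∀ i j,
      (co e (φ (lv i))).1 - (co e (φ (lv j))).1 = 0 ∨
      ((co e (φ (lv i))).1 - (co e (φ (lv j))).1) ^ 2 = C := by
  obtain ⟨c, hc, h1, h2⟩ := exists_c act5 (fun i => (⟨e i, 0, 0, 0, 0⟩ : N5)) 1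
    (fun i j => by
      rw [act5_1, TA1_mk, TA1_mk, N5.mul_mk, N5.mul_mk, N5.mk.injEq]
      refine ⟨?_, ?_, ?_, ?_, ?_⟩ <;> ring)
    (fun i => by
      rw [act5_1, act5_2, map_one, map_one, TA2_mk, TA1_mk, mul_one, mul_one, one_mul, N5.mul_mk,
        N5.mk.injEq]
      rcases he i with h | h <;> rw [h] <;> norm_num)
  have hco : ∀ y, co e y = ((c y).x, (c y).y) := by
    intro y
    refine (co_is e).ext (c' := fun y => ((c y).x, (c y).y)) (fun a b => ?_) (fun i => ?_) ?_ y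
    · change ((c (a * b)).x, (c (a * b)).y) = _
      rw [hc]
      have key : ∀ (g : B3) (n : N5), act g (n.x, n.y) = ((act5 g n).x, (act5 g n).y) := by
        intro g
        have hg : g ∈ Subgroup.closure ({s1, s2} : Set B3) := by rw [closure_B3]; trivial
        induction hg using Subgroup.closure_induction with
        | mem g hg =>
          rcases hg with rfl | hg
          · intro n
            rw [act_1, act5_1]
            rfl
          · rw [Set.mem_singleton_iff] at hg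
            subst hg
            intro n
            rw [act_2, act5_2]
            rfl
        | one => intro n; rw [act_one, map_one]; rfl
        | mul g h _ _ hg hh =>
          intro n
          rw [act_mul, hh, hg, map_mul]
          rfl
        | inv g _ hg =>
          intro n
          have h3 := hg (act5 g⁻¹ n)
          have h4 : act5 g (act5 g⁻¹ n) = n := by
            rw [map_inv]; exact MulAut.apply_inv_self _ _ _
          rw [h4] at h3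
          rw [← h3, act_inv']
      change ((c a).x + (act5 (F3 a) (c b)).x, (c a).y + (act5 (F3 a) (c b)).y) =
        ((c a).x, (c a).y) + act (F3 a) ((c b).x, (c b).y)
      rw [key, Prod.mk_add_mk]
    · change _ = ((c (lv i)).x, (c (lv i)).y)
      rw [h1, co_lv]
    · change _ = ((c cc).x, (c cc).y)
      rw [h2, co_cc]
      rfl
  obtain ⟨e1, e2⟩ := (hc.comp hφ).eqs
  simp only [act5_1, act5_2] at e1 e2
  refine ⟨1 - 6 * ((c (φ cc)).z + (c (φ cc)).y - (c (φ cc)).y ^ 2), fun i j => ?_⟩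
  rw [hco, hco]
  exact two_val (e1 i j) (e2 i) (e2 j)

end Pool.Agent.Helper7.D4
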