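import Pool.Agent.Helper7.D4.Form
import Pool.Agent.Helper38.DN.S2F
import Pool.Agent.Helper20.DN.S6

/-!
# Project D4: normalized automorphisms preserve `NN`, `LR` and `LL`
-/

namespace Pool.Agent.Helper7.D4

open Pool.Agent.Helper38.BN hiding RW
open Pool.Agent.Helper20.DN Equiv
open Pool.Agent.Helper38.DN (piFD piD piFD_a piFD_b piFD_e foldD foldD_a foldD_b foldD_e QQ QQ_one
  QQ_apply fR fR_inj qR qR_lam decompN memN NN_eq fold_eq piH_foldD NN_fg NN_char_pure Vd comm_Vd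
  LR_N LL_N LR_of_v0 fR_apply)

/-! ### the fold of the braid group on four strands -/

/-- the fold of `HB 3` -/
def q4 : HB 3 →* B3 := liftH (a := fun j => if j = 1 then s2 else s1) (d := 1)
  { comm := fun i j h1 h2 => by
      have e1 : i = 0 := by omega
      have e2 : j = 2 := by omega
      subst e1 e2
      rfl
    braid := fun i h => by
      have e : i = 0 ∨ i = 1 := by omega
      rcases e with rfl | rfl
      · exact s_braid
      · exact s_braid.symm
    dcomm := fun i _ _ => by simp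
    four := fun _ => by simp }

lemma q4_a0 : q4 (aH 0) = s1 := liftH_a _ (by omega)
lemma q4_a1 : q4 (aH 1) = s2 := liftH_a _ (by omega)
lemma q4_a2 : q4 (aH 2) = s1 := liftH_a _ (by omega)

lemma F3_fold (x : D 0) : F3 x = q4 (foldD 0 x) := by
  have h : F3 = q4.comp (foldD 0) := by
    apply homS_ext
    · intro i
      rw [F3_lv, MonoidHom.comp_apply]
      fin_cases i
      · change s1 = q4 (foldD 0 (aD 0))
        rw [foldD_a (by omega), q4_a0]
      · change s1 = q4 (foldD 0 eD)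
        rw [foldD_e, q4_a0]
      · change s1 = q4 (foldD 0 (aD 2))
        rw [foldD_a (by omega), q4_a2]
      · change s1 = q4 (foldD 0 bD)
        rw [foldD_b, q4_a2]
    · rw [F3_cc, MonoidHom.comp_apply]
      change s2 = q4 (foldD 0 (aD 1))
      rw [foldD_a (by omega), q4_a1]
  exact DFunLike.congr_fun h x

lemma act_Om (v : ℤ × ℤ) : act (q4 (Om 3 aH)) v = v := by
  have h : q4 (Om 3 aH) = (s1 * s2 * s1) ^ 4 := by
    unfold Om
    rw [map_pow]
    have h1 : q4 (kap aH 3) = s1 * s2 * s1 := by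
      change q4 (1 * aH 0 * aH 1 * aH 2) = _
      rw [map_mul, map_mul, map_mul, map_one, one_mul, q4_a0, q4_a1, q4_a2]
    rw [h1]
  obtain ⟨a, b⟩ := v
  rw [h, pow_succ, pow_succ, pow_succ, pow_one]
  simp only [act_mul, act_1, act_2, SA1_apply, SA2_apply]
  ext <;> dsimp only <;> ring

/-- the action of `NN` on `ℤ × ℤ` is trivial -/
lemma act_NN {x : D 0} (hx : x ∈ NN 0) (v : ℤ × ℤ) : act (F3 x) v = v := by
  obtain ⟨n, hn⟩ := Subgroup.mem_zpowers_iff.1 hx
  have h1 : F3 x = (q4 (Om 3 aH)) ^ n := by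
    rw [F3_fold, ← fold_eq, ← map_zpow]
    exact congrArg q4 hn.symm
  rw [h1]
  have h2 : ∀ m : ℕ, ∀ v, act ((q4 (Om 3 aH)) ^ m) v = v := by
    intro m
    induction m with
    | zero => intro v; rw [pow_zero, act_one]
    | succ m ih => intro v; rw [pow_succ, act_mul, act_Om, ih]
  rcases n with m | m
  · rw [Int.ofNat_eq_natCast, zpow_natCast, h2]
  · rw [zpow_negSucc]
    have h3 := act_inv' ((q4 (Om 3 aH)) ^ (m + 1)) v
    rwa [h2] at h3

/-! ### the cocycle `co (ev 0)` vanishes on `LR` -/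

lemma co_Vd {x : D 0} (hx : x ∈ Vd 0) : F3 x = 1 ∧ co (ev 0) x = 0 := by
  let S : Subgroup (D 0) :=
    { carrier := {x | F3 x = 1 ∧ co (ev 0) x = 0}
      one_mem' := ⟨map_one _, (co_is _).one⟩
      mul_mem' := fun {x y} hx hy => ⟨by rw [map_mul, hx.1, hy.1, mul_one], by
        rw [co_is, hx.1, act_one, hx.2, hy.2, add_zero]⟩
      inv_mem' := fun {x} hx => ⟨by rw [map_inv, hx.1, inv_one], by
        rw [(co_is _).inv, hx.2, map_zero, neg_zero]⟩ }
  have hS : S.Normal := by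
    refine ⟨fun x hx g => ?_⟩
    have h1 : F3 (g * x * g⁻¹) = 1 := by
      rw [map_mul, map_mul, hx.1, mul_one, map_inv, mul_inv_cancel]
    refine ⟨h1, ?_⟩
    change co (ev 0) (g * x * g⁻¹) = 0
    rw [(co_is _).conj, h1, act_one, hx.2, map_zero, add_zero, sub_self]
  have h : Vd 0 ≤ S := by
    apply Subgroup.normalClosure_le_normal
    intro y hy
    rw [Set.mem_singleton_iff] at hy
    rw [hy]
    change F3 (lv 3 * (lv 2)⁻¹) = 1 ∧ co (ev 0) (lv 3 * (lv 2)⁻¹) = 0
    refine ⟨by rw [map_mul, map_inv, F3_lv, F3_lv, mul_inv_cancel], ?_⟩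
    have h1 : ∀ i : Fin 4, i ≠ 0 → co (ev 0) (lv i) = 0 := by
      intro i hi
      rw [co_lv]
      unfold ev
      rw [if_neg hi]
      rfl
    rw [co_is, (co_is _).inv, h1 3 (by decide), h1 2 (by decide)]
    simp
  exact h hx

lemma co_LR {x : D 0} (hx : x ∈ LR 0) : co (ev 0) x = 0 := by
  have key : ∀ y, act (F3 y) (co (ev 0) x) = co (ev 0) x := by
    intro y
    obtain ⟨h1, h2⟩ := co_Vd (comm_Vd hx y)
    have h3 : y * x = (y * x * y⁻¹ * x⁻¹) * (x * y) := by group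
    have h4 := congrArg (co (ev 0)) h3
    rw [co_is, co_is, co_is (ev 0) x y, h1, h2, act_one, act_NN (LR_N hx)] at h4
    have h5 : act (F3 y) (co (ev 0) x) = co (ev 0) y + act (F3 y) (co (ev 0) x) - co (ev 0) y := by
      abel
    rw [h5, h4]
    abel
  apply act_fix
  · have := key (lv 0)
    rwa [F3_lv] at this
  · have := key cc
    rwa [F3_cc] at this

/-! ### properties of normalized automorphisms -/

lemma Nm.inv {φ : MulAut (D 0)} (h : Nm φ) : Nm φ⁻¹ := by
  have hF := F3_inv h.fold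
  refine ⟨hF, fun i => ?_, fun y => ?_⟩
  · obtain ⟨X, hX⟩ := h.col i
    refine ⟨-X, fun y => ?_⟩
    have h1 := hX (φ⁻¹ y)
    rw [MulAut.apply_inv_self, cob_F3 (hF y)] at h1
    rw [h1, cob_neg]
    abel
  · rw [← h.pi, MulAut.apply_inv_self]

/-- the permutation of the leaves of the mirror image -/
def sm : Perm (Fin 4) := swap 0 2 * swap 1 3

lemma sg_pm (y : D 0) : sg 0 y = pm sm y := by
  have h : (sg 0).toMonoidHom = (pm sm).toMonoidHom := by
    apply homS_ext
    · intro i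
      change sg 0 (lv i) = pm sm (lv i)
      rw [pm_lv]
      fin_cases i
      · change sg 0 (aD 0) = lv (sm 0)
        rw [sg_a (by omega)]
        have : sm 0 = 2 := by decide
        rw [this]
        rfl
      · change sg 0 eD = lv (sm 1)
        rw [sg_e]
        have : sm 1 = 3 := by decide
        rw [this]
        rfl
      · change sg 0 (aD 2) = lv (sm 2)
        rw [sg_a (by omega)]
        have : sm 2 = 0 := by decide
        rw [this]
        rfl
      · change sg 0 bD = lv (sm 3)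
        rw [sg_b]
        have : sm 3 = 1 := by decide
        rw [this]
        rfl
    · change sg 0 cc = pm sm cc
      rw [pm_cc]
      change sg 0 (aD 1) = aD 1
      rw [sg_a (by omega)]
  exact DFunLike.congr_fun h y

lemma piFD_sg (y : D 0) : (piFD 0 (sg 0 y) : Perm (Fin 4)) =
    (swap 0 3 * swap 1 2 : Perm (Fin 4)) * piFD 0 y * (swap 0 3 * swap 1 2 : Perm (Fin 4))⁻¹ := by
  have h0 : (piFD 0 (aD 0) : Perm (Fin 4)) = swap 0 1 := by
    have h := piFD_a (p := 0) (j := 0) (by omega)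
    rw [h]; rfl
  have h1 : (piFD 0 (aD 1) : Perm (Fin 4)) = swap 1 2 := by
    have h := piFD_a (p := 0) (j := 1) (by omega)
    rw [h]; rfl
  have h2 : (piFD 0 (aD 2) : Perm (Fin 4)) = swap 2 3 := by
    have h := piFD_a (p := 0) (j := 2) (by omega)
    rw [h]; rfl
  have h3 : (piFD 0 bD : Perm (Fin 4)) = swap 2 3 := by
    have h := piFD_b (p := 0)
    rw [h]; rfl
  have h4 : (piFD 0 eD : Perm (Fin 4)) = swap 0 1 := by
    have h := piFD_e (p := 0)
    rw [h]; rfl
  have h : (piFD 0 : D 0 →* Perm (Fin 4)).comp (sg 0).toMonoidHom =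
      (MulAut.conj (swap 0 3 * swap 1 2 : Perm (Fin 4))).toMonoidHom.comp (piFD 0) := by
    apply homS_ext
    · intro i
      change (piFD 0 (sg 0 (lv i)) : Perm (Fin 4)) =
        (swap 0 3 * swap 1 2 : Perm (Fin 4)) * piFD 0 (lv i) *
          (swap 0 3 * swap 1 2 : Perm (Fin 4))⁻¹
      fin_cases i
      · change (piFD 0 (sg 0 (aD 0)) : Perm (Fin 4)) = _ * piFD 0 (aD 0) * _
        rw [sg_a (by omega), h0]
        change (piFD 0 (aD 2) : Perm (Fin 4)) = _
        rw [h2]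
        decide
      · change (piFD 0 (sg 0 eD) : Perm (Fin 4)) = _ * piFD 0 eD * _
        rw [sg_e, h3, h4]
        decide
      · change (piFD 0 (sg 0 (aD 2)) : Perm (Fin 4)) = _ * piFD 0 (aD 2) * _
        rw [sg_a (by omega), h2]
        change (piFD 0 (aD 0) : Perm (Fin 4)) = _
        rw [h0]
        decide
      · change (piFD 0 (sg 0 bD) : Perm (Fin 4)) = _ * piFD 0 bD * _
        rw [sg_b, h3, h4]
        decide
    · change (piFD 0 (sg 0 (aD 1)) : Perm (Fin 4)) = (swap 0 3 * swap 1 2 : Perm (Fin 4)) *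
        piFD 0 (aD 1) * (swap 0 3 * swap 1 2 : Perm (Fin 4))⁻¹
      rw [sg_a (by omega)]
      change (piFD 0 (aD 1) : Perm (Fin 4)) = _
      rw [h1]
      decide
  exact DFunLike.congr_fun h y

lemma piFD_of_piD {x y : D 0} (h : piD 0 x = piD 0 y) : piFD 0 x = piFD 0 y := extF_inj h

lemma Nm.mirror {φ : MulAut (D 0)} (h : Nm φ) : Nm (mir φ) := by
  refine ⟨fun y => ?_, fun i => ?_, fun y => ?_⟩
  · rw [mir_apply, sg_pm, F3_pm, h.fold, sg_pm, F3_pm]
  · have hev : ∀ i, (fun j => ev i (sm j)) = ev (sm i) := by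
      intro i
      funext j
      revert i j
      decide
    obtain ⟨X, hX⟩ := h.col (sm i)
    refine ⟨X, fun y => ?_⟩
    have h2 : ∀ i, sm (sm i) = i := by decide
    rw [mir_apply, sg_pm, co_pm, hev, hX, sg_pm, co_pm, hev, h2, cob_F3 (F3_pm _ _)]
  · have h1 : piFD 0 (mir φ y) = piFD 0 y := by
      rw [mir_apply]
      have h3 : piFD 0 (φ (sg 0 y)) = piFD 0 (sg 0 y) := piFD_of_piD (h.pi _)
      have h5 : ((swap 0 3 * swap 1 2 : Perm (Fin 4)) * (swap 0 3 * swap 1 2) : Perm (Fin 4)) = 1 := by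
        decide
      have h6 : (swap 0 3 * swap 1 2 : Perm (Fin 4))⁻¹ = swap 0 3 * swap 1 2 := by decide
      have h7 := piFD_sg y
      have h4 := piFD_sg (φ (sg 0 y))
      rw [h6] at h4 h7
      rw [h4, h3, h7]
      calc (swap 0 3 * swap 1 2 : Perm (Fin 4)) * ((swap 0 3 * swap 1 2) * piFD 0 y *
            (swap 0 3 * swap 1 2)) * (swap 0 3 * swap 1 2)
          = ((swap 0 3 * swap 1 2 : Perm (Fin 4)) * (swap 0 3 * swap 1 2)) * piFD 0 y *
            ((swap 0 3 * swap 1 2) * (swap 0 3 * swap 1 2)) := by simp only [mul_assoc]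
        _ = piFD 0 y := by rw [h5, one_mul, mul_one]
    change extF _ (piFD 0 _) = extF _ (piFD 0 y)
    rw [h1]

lemma Nm.mapNN {φ : MulAut (D 0)} (h : Nm φ) : ∀ x ∈ NN 0, φ x ∈ NN 0 := by
  intro x hx
  rw [NN_eq] at hx ⊢
  exact NN_char_pure NN_fg h.pi hx

/-- elements of `NN`, with the parity -/
lemma memN' {x : D 0} (hx : x ∈ NN 0) : ∃ w, parW 3 w = 1 ∧ qR 0 (iD x) = fR 0 w := by
  obtain ⟨l, w, h⟩ := decompN (p := 0) (x := iD x) hx
  refine ⟨w, ?_, by rw [h, map_mul, qR_lam, one_mul]; rfl⟩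
  have hf : ((MonoidHom.fst ℤˣ ℤˣ).comp ((sgn 0).comp (lam 0))) = 1 := by
    apply homL_ext
    · intro i hi
      show (sgn 0 (lam 0 (xL i))).1 = 1
      rw [← sW_x hi, sgn_sW]
    · show (sgn 0 (lam 0 yL)).1 = 1
      rw [lam_y, map_mul, map_inv, sgn_ze]
      have h1 : sgn 0 (lam 0 (RL (0 + 3))) = (1, parW (0 + 3) (RW (0 + 3))) := sgn_sW _
      rw [h1]
      simp only [Prod.fst_mul, Prod.fst_inv, inv_one, mul_one]
      decide
  have h1 := congrArg (fun y => (sgn 0 y).1) h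
  simp only [map_mul, Prod.fst_mul, sgn_sW'] at h1
  have h2 : sgn 0 (iD x) = 1 := SemidirectProduct.rightHom_inl _
  have h3 : (sgn 0 (lam 0 l)).1 = 1 := DFunLike.congr_fun hf l
  rw [h2, h3, one_mul] at h1
  exact h1.symm

/-- `co (ev 0)` on products of elements of the kernel of the fold -/
lemma co_ker {c : D 0 → ℤ × ℤ} (hc : IsCo c) {x y : D 0} (hx : F3 x = 1) (hy : F3 y = 1)
    (n m : ℤ) : c (x ^ n * y ^ m) = n • c x + m • c y := by
  have hz : ∀ {x : D 0}, F3 x = 1 → ∀ n : ℤ, F3 (x ^ n) = 1 ∧ c (x ^ n) = n • c x := by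
    intro x hx n
    have h0 : ∀ n : ℤ, F3 (x ^ n) = 1 := fun n => by rw [map_zpow, hx, one_zpow]
    refine ⟨h0 n, ?_⟩
    induction n using Int.induction_on with
    | zero => rw [zpow_zero, hc.one, zero_smul]
    | succ n ih =>
      rw [_root_.zpow_add, zpow_one, hc, h0, act_one, ih, add_smul, one_smul]
    | pred n ih =>
      rw [_root_.zpow_sub, zpow_one, hc, h0, act_one, ih, hc.inv, hx, inv_one, act_one, sub_smul,
        one_smul, sub_eq_add_neg]
  rw [hc, (hz hx n).1, act_one, (hz hx n).2, (hz hy m).2]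

/-- the image of `v_0` -/
theorem Nm.v0 {φ : MulAut (D 0)} (h : Nm φ) : QQ φ (bD * (aD 2)⁻¹) = 1 := by
  have hu : eD * (aD 0)⁻¹ ∈ NN 0 := LL_N u0_LL
  have hv : bD * (aD 2)⁻¹ ∈ NN 0 := LR_N v0_LR
  obtain ⟨U, hU1, hU⟩ := memN' (h.mapNN _ hu)
  obtain ⟨V, hV1, hV⟩ := memN' (h.mapNN _ hv)
  obtain ⟨X, hX⟩ := h.col 0
  -- the values of the cocycle
  have hlv : ∀ i : Fin 4, co (ev 0) (lv i) = (ev 0 i, 0) := fun i => co_lv _ _
  have fu : F3 (eD * (aD 0)⁻¹) = 1 := by
    change F3 (lv 1 * (lv 0)⁻¹) = 1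
    rw [map_mul, map_inv, F3_lv, F3_lv, mul_inv_cancel]
  have fv : F3 (bD * (aD 2)⁻¹) = 1 := by
    change F3 (lv 3 * (lv 2)⁻¹) = 1
    rw [map_mul, map_inv, F3_lv, F3_lv, mul_inv_cancel]
  have hcob : ∀ {y : D 0}, F3 y = 1 → cob X y = 0 := by
    intro y hy
    unfold cob
    rw [hy, act_one, sub_self]
  have cu : co (ev 0) (φ (eD * (aD 0)⁻¹)) = (-1, 0) := by
    rw [hX, hcob fu, add_zero]
    change co (ev 0) (lv 1 * (lv 0)⁻¹) = (-1, 0)
    rw [co_is, (co_is _).inv, map_neg, F3_lv, F3_lv, act_inv, hlv, hlv]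
    rfl
  have cv : co (ev 0) (φ (bD * (aD 2)⁻¹)) = 0 := by
    rw [hX, hcob fv, add_zero]
    exact co_LR v0_LR
  have Fu : F3 (φ (eD * (aD 0)⁻¹)) = 1 := by rw [h.fold, fu]
  have Fv : F3 (φ (bD * (aD 2)⁻¹)) = 1 := by rw [h.fold, fv]
  -- the elements commute
  have hcom : V * U = U * V := by
    apply fR_inj
    rw [map_mul, map_mul, ← hU, ← hV, ← map_mul, ← map_mul, ← map_mul, ← map_mul, ← map_mul,
      ← map_mul]
    congr 3
    have c1 : Commute (bD : D 0) eD := star.comm 3 1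
    have c2 : Commute (bD : D 0) (aD 0) := star.comm 3 0
    have c3 : Commute (aD 2 : D 0) eD := star.comm 2 1
    have c4 : Commute (aD 2 : D 0) (aD 0) := star.comm 2 0
    exact ((c1.mul_right c2.inv_right).mul_left (c3.mul_right c4.inv_right).inv_left).eq
  have hLR : ∀ n m : ℤ, U ^ n * V ^ m = 1 →
      (φ (eD * (aD 0)⁻¹)) ^ n * (φ (bD * (aD 2)⁻¹)) ^ m ∈ LR 0 := by
    intro n m hnm
    have h1 : qR 0 (iD ((φ (eD * (aD 0)⁻¹)) ^ n * (φ (bD * (aD 2)⁻¹)) ^ m)) = 1 := by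
      rw [map_mul, map_mul, map_zpow, map_zpow, map_zpow, map_zpow, hU, hV, ← map_zpow,
        ← map_zpow, ← map_mul, hnm, map_one]
    exact Pool.Agent.Helper38.DN.qR_eq_one.1 h1
  have hval : ∀ n m : ℤ, U ^ n * V ^ m = 1 → n = 0 := by
    intro n m hnm
    have h1 := co_LR (hLR n m hnm)
    rw [co_ker (co_is _) Fu Fv, cu, cv, smul_zero, add_zero] at h1
    have h2 := congrArg Prod.fst h1
    simpa using h2
  have hU0 : U ≠ 1 := by
    rintro rfl
    have := hval 1 0 (by rw [zpow_one, zpow_zero, mul_one])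
    exact one_ne_zero this
  obtain ⟨c, hc1, hc2, hc3⟩ := cyc_cent hU0 hU1
  obtain ⟨m, hm⟩ := Subgroup.mem_zpowers_iff.1 (hc3 U hU1 rfl)
  obtain ⟨n, hn⟩ := Subgroup.mem_zpowers_iff.1 (hc3 V hV1 hcom)
  have h0 : n = 0 := by
    apply hval n (-m)
    rw [← hm, ← hn, ← zpow_mul, ← zpow_mul, ← _root_.zpow_add]
    have e : m * n + n * -m = 0 := by ring
    rw [e, zpow_zero]
  rw [QQ_apply, hV, ← hn, h0, zpow_zero, map_one]

theorem Nm.PLR {φ : MulAut (D 0)} (h : Nm φ) : PLR φ := by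
  intro x
  constructor
  · intro hx
    have h1 := LR_of_v0 h.inv.mapNN h.inv.v0 hx
    rwa [MulAut.inv_apply_self] at h1
  · exact fun hx => LR_of_v0 h.mapNN h.v0 hx

theorem Nm.PLL {φ : MulAut (D 0)} (h : Nm φ) : PLL φ := by
  have h1 := h.mirror.PLR.mirror
  rwa [mir_mir] at h1

lemma piH_fold (x : D 0) : piH 3 (foldG 0 (iD x)) = piD 0 x := by
  rw [fold_eq]
  exact piH_foldD x

theorem Nm.PiC {φ : MulAut (D 0)} (h : Nm φ) : PiC φ := by
  refine ⟨1, fun x => ?_⟩
  have h1 := piH_fold (φ x)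
  have h2 := piH_fold x
  rw [h.pi] at h1
  rw [one_mul, inv_one, mul_one]
  exact h1.trans h2.symm

lemma piD_eps (x : D 0) : piD 0 (Pool.Agent.Helper20.DN.eps 0 x) = piD 0 x := by
  have h : (piD 0).comp (Pool.Agent.Helper20.DN.eps 0).toMonoidHom = piD 0 := by
    apply homD_ext
    · intro j hj
      change piD 0 (Pool.Agent.Helper20.DN.eps 0 (aD j)) = piD 0 (aD j)
      rw [Pool.Agent.Helper20.DN.eps_a hj, map_inv, Pool.Agent.Helper38.DN.piD_a hj, swap_inv]
    · change piD 0 (Pool.Agent.Helper20.DN.eps 0 bD) = piD 0 bD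
      rw [Pool.Agent.Helper20.DN.eps_b, map_inv, Pool.Agent.Helper38.DN.piD_b, swap_inv]
    · change piD 0 (Pool.Agent.Helper20.DN.eps 0 eD) = piD 0 eD
      rw [Pool.Agent.Helper20.DN.eps_e, map_inv, Pool.Agent.Helper38.DN.piD_e, swap_inv]
  exact DFunLike.congr_fun h x

theorem Nm.PiC_eps {φ : MulAut (D 0)} (h : Nm φ) :
    Pool.Agent.Helper20.DN.PiC (φ * Pool.Agent.Helper20.DN.eps 0) := by
  refine ⟨1, fun x => ?_⟩
  have h1 := piH_fold (φ (Pool.Agent.Helper20.DN.eps 0 x))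
  have h2 := piH_fold x
  rw [h.pi, piD_eps] at h1
  rw [one_mul, inv_one, mul_one]
  exact h1.trans h2.symm

end Pool.Agent.Helper7.D4
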